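import Pool.Agent.CluN.Defs

/-!
# Cluster algebras of geometric type, of any rank, and their good bases

There are `n` directions. The directions in `M` are mutable, the others are frozen; the frozen
variables in `V` (`V` is disjoint from `M`) are inverted in the cluster algebra. The exchange matrix
is written as a square matrix, only its columns in `M` matter. Seeds `Seed F n`, the right-hand side
`rhs` of the exchange relation and mutation are those of `Pool/Agent/CluN/Defs.lean`.
-/

namespace Pool.Agent.CluF

open Pool.Agent.CluN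

variable {F : Type} [Field F] {n : ℕ}

/-- seeds obtained from `s₀` by finitely many mutations in mutable directions -/
inductive Reach (M : Finset (Fin n)) (s₀ : Seed F n) : Seed F n → Prop
  | init : Reach M s₀ s₀
  | step (s : Seed F n) (k : Fin n) : k ∈ M → Reach M s₀ s → Reach M s₀ (s.mutate k)

/-- the principal part (rows and columns in `M`) is skew-symmetrizable -/
def SkewOn (M : Finset (Fin n)) (b : Fin n → Fin n → ℤ) : Prop :=
  ∃ d : Fin n → ℤ, (∀ i, 0 < d i) ∧ ∀ i ∈ M, ∀ j ∈ M, d i * b i j = -(d j * b j i)

/-- `s₀` is a seed in the sense of the theory -/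
def IsSeed (M : Finset (Fin n)) (s₀ : Seed F n) : Prop :=
  AlgebraicIndependent ℤ s₀.z ∧ SkewOn M s₀.b

/-- all off-diagonal entries of the principal part are nonzero and, if there are at least three
mutable directions, the products `|b i j * b j i|` are at least `9` -/
def AbundantOn (M : Finset (Fin n)) (b : Fin n → Fin n → ℤ) : Prop :=
  ∀ i ∈ M, ∀ j ∈ M, i ≠ j → b i j ≠ 0 ∧ (M.card ≤ 2 ∨ 9 ≤ |b i j * b j i|)

/-- the principal part has no oriented cycles -/
def AcyclicOn (M : Finset (Fin n)) (b : Fin n → Fin n → ℤ) : Prop :=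
  ∃ ρ : Fin n → ℕ, ∀ i ∈ M, ∀ j ∈ M, 0 < b i j → ρ i < ρ j

/-- matrices obtained by finitely many mutations in mutable directions -/
inductive MReach (M : Finset (Fin n)) (b₀ : Fin n → Fin n → ℤ) : (Fin n → Fin n → ℤ) → Prop
  | init : MReach M b₀ b₀
  | step (b : Fin n → Fin n → ℤ) (k : Fin n) : k ∈ M → MReach M b₀ b → MReach M b₀ (mutB b k)

/-- Cluster variables (mutable). -/
def IsClusterVar (M : Finset (Fin n)) (s₀ : Seed F n) (f : F) : Prop :=
  ∃ s, Reach M s₀ s ∧ ∃ i ∈ M, f = s.z i

/-- Frozen variables. -/
def IsFrozenVar (M : Finset (Fin n)) (s₀ : Seed F n) (f : F) : Prop := ∃ i, i ∉ M ∧ f = s₀.z i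

/-- Cluster monomials: in the elements of an extended cluster, with nonnegative exponents except for
the inverted frozen variables, whose exponents are arbitrary integers. -/
def IsClusterMon (M V : Finset (Fin n)) (s₀ : Seed F n) (f : F) : Prop :=
  ∃ s, Reach M s₀ s ∧ ∃ e : Fin n → ℤ, (∀ i, i ∉ V → 0 ≤ e i) ∧ f = ∏ i, s.z i ^ e i

/-- The cluster algebra: the subring generated by all cluster variables, the frozen variables and the
inverses of the frozen variables in `V`. -/
def clAlg (M V : Finset (Fin n)) (s₀ : Seed F n) : Subring F :=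
  Subring.closure {f | IsClusterVar M s₀ f ∨ IsFrozenVar M s₀ f ∨ ∃ i ∈ V, f = (s₀.z i)⁻¹}

/-- A good basis: a `ℤ`-basis containing all cluster monomials, with nonnegative structure
constants. -/
structure IsGood (M V : Finset (Fin n)) (s₀ : Seed F n) {ι : Type}
    (β : Module.Basis ι ℤ (clAlg M V s₀)) : Prop where
  monomials : ∀ f : clAlg M V s₀, IsClusterMon M V s₀ (f : F) → f ∈ Set.range β
  nonneg : ∀ i j k : ι, 0 ≤ β.repr (β i * β j) k

/-- A basis element is real if its square lies in the basis. -/
def IsReal {M V : Finset (Fin n)} {s₀ : Seed F n} {ι : Type}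
    (β : Module.Basis ι ℤ (clAlg M V s₀)) (i : ι) : Prop :=
  β i * β i ∈ Set.range β

/-- A basis element is indecomposable if, whenever it is a product of two elements of the basis, one
of them is a unit of the cluster algebra. -/
def IsIndec {M V : Finset (Fin n)} {s₀ : Seed F n} {ι : Type}
    (β : Module.Basis ι ℤ (clAlg M V s₀)) (i : ι) : Prop :=
  ∀ j k, β i = β j * β k → IsUnit (β j) ∨ IsUnit (β k)

/-- The superunitary region of a basis. -/
def superunitary {M V : Finset (Fin n)} {s₀ : Seed F n} {ι : Type}
    (β : Module.Basis ι ℤ (clAlg M V s₀)) : Set (clAlg M V s₀ →+* ℝ) :=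
  {p | ∀ i, 1 ≤ p (β i)}

/-- The other side of the question: positive on all (mutable) cluster variables and at least `1` on
all real indecomposable elements of the basis. -/
def realSuperunitary {M V : Finset (Fin n)} {s₀ : Seed F n} {ι : Type}
    (β : Module.Basis ι ℤ (clAlg M V s₀)) : Set (clAlg M V s₀ →+* ℝ) :=
  {p | (∀ x : clAlg M V s₀, IsClusterVar M s₀ (x : F) → 0 < p x) ∧
    ∀ i, IsReal β i → IsIndec β i → 1 ≤ p (β i)}

end Pool.Agent.CluF
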