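import Pool.Agent.CluF.Defs
import Pool.Agent.CluN.Fork

/-!
# Mutation classes of matrices with abundant acyclic principal part
-/

namespace Pool.Agent.CluF

open Pool.Agent.CluN

/-- skew-symmetrizable matrices of size at most two are acyclic -/
theorem acyclic_small {n : ℕ} {b : Fin n → Fin n → ℤ} (hs : IsSkew b) (hn : n ≤ 2) :
    Acyclic b := by
  classical
  obtain ⟨d, hd, hd'⟩ := hs
  have hneg : ∀ i j, 0 < b i j → b j i < 0 := by
    intro i j h
    have h1 := mul_pos (hd i) h
    rw [hd' i j] at h1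
    by_contra h2
    have h3 := mul_nonneg (hd j).le (not_lt.1 h2)
    omega
  refine ⟨fun i => if ∃ j, 0 < b j i then 1 else 0, fun i j hij => ?_⟩
  have h1 : ∃ k, 0 < b k j := ⟨i, hij⟩
  have h2 : ¬ ∃ k, 0 < b k i := by
    rintro ⟨k, hk⟩
    have a1 := hneg _ _ hij
    have a2 := hneg _ _ hk
    have hki : k ≠ i := by rintro rfl; omega
    have hkj : k ≠ j := by rintro rfl; omega
    have hji : j ≠ i := by rintro rfl; omega
    have b1 := k.2
    have b2 := i.2
    have b3 := j.2
    have c1 : (k : ℕ) ≠ i := fun h => hki (Fin.ext h)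
    have c2 : (k : ℕ) ≠ j := fun h => hkj (Fin.ext h)
    have c3 : (j : ℕ) ≠ i := fun h => hji (Fin.ext h)
    omega
  dsimp only
  rw [if_pos h1, if_neg h2]
  norm_num

/-- restriction along an injective map commutes with mutation -/
theorem mutB_comp {n r : ℕ} {f : Fin r → Fin n} (hf : Function.Injective f)
    (b : Fin n → Fin n → ℤ) (k : Fin r) :
    (fun i j => mutB b (f k) (f i) (f j)) = mutB (fun i j => b (f i) (f j)) k := by
  funext i j
  have h : (f i = f k ∨ f j = f k) ↔ (i = k ∨ j = k) := by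
    rw [hf.eq_iff, hf.eq_iff]
  by_cases h1 : i = k ∨ j = k
  · unfold mutB
    rw [if_pos h1, if_pos (h.2 h1)]
  · unfold mutB
    rw [if_neg h1, if_neg (fun h2 => h1 (h.1 h2))]

theorem abundantOn_of_acyclicOn {n : ℕ} (M : Finset (Fin n)) (b : Fin n → Fin n → ℤ)
    (hs : SkewOn M b) (ha : M.card ≤ 2 ∨ AcyclicOn M b) (hw : AbundantOn M b) :
    ∀ b', MReach M b b' → AbundantOn M b' := by
  obtain ⟨f, hfdef⟩ : ∃ f : Fin M.card → Fin n, f = fun i => (M.equivFin.symm i : Fin n) := ⟨_, rfl⟩
  have hfM : ∀ i, f i ∈ M := by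
    intro i
    rw [hfdef]
    exact (M.equivFin.symm i).2
  have hf : Function.Injective f := by
    intro i j h
    rw [hfdef] at h
    exact M.equivFin.symm.injective (Subtype.ext h)
  have hsurj : ∀ x ∈ M, ∃ i, f i = x := by
    intro x hx
    refine ⟨M.equivFin ⟨x, hx⟩, ?_⟩
    rw [hfdef]
    simp
  have hs' : IsSkew fun i j => b (f i) (f j) := by
    obtain ⟨d, hd, hd'⟩ := hs
    exact ⟨fun i => d (f i), fun i => hd _, fun i j => hd' _ (hfM i) _ (hfM j)⟩
  have ha' : Acyclic fun i j => b (f i) (f j) := by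
    rcases ha with h | ⟨ρ, hρ⟩
    · exact acyclic_small hs' h
    · exact ⟨fun i => ρ (f i), fun i j h => hρ _ (hfM i) _ (hfM j) h⟩
  have hw' : Abundant fun i j => b (f i) (f j) := by
    intro i j hij
    exact hw _ (hfM i) _ (hfM j) (fun h => hij (hf h))
  have hreach : ∀ b', MReach M b b' →
      MatReach (fun i j => b (f i) (f j)) (fun i j => b' (f i) (f j)) := by
    intro b' h
    induction h with
    | init => exact MatReach.init
    | step b' k hk _ ih =>
      obtain ⟨l, rfl⟩ := hsurj k hk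
      rw [mutB_comp hf]
      exact MatReach.step _ _ ih
  intro b' hb' x hx y hy hxy
  obtain ⟨i, rfl⟩ := hsurj x hx
  obtain ⟨j, rfl⟩ := hsurj y hy
  exact abundant_of_acyclic _ hs' ha' hw' _ (hreach b' hb') i j (fun h => hxy (by rw [h]))

end Pool.Agent.CluF
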