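import Pool.Agent.CluF.Pos

/-!
# Cluster variables and frozen variables are real and indecomposable
-/

namespace Pool.Agent.CluF

open Pool.Agent.CluN

variable {F : Type} [Field F] {n : ℕ} {M V : Finset (Fin n)} {s₀ : Seed F n} {ι : Type}
  {β : Module.Basis ι ℤ (clAlg M V s₀)}

theorem mon_real (hβ : IsGood M V s₀ β) (s : Seed F n) (hs : Reach M s₀ s) (e : Fin n → ℤ)
    (he : ∀ i, i ∉ V → 0 ≤ e i) (i : ι) (hi : (β i : F) = mon s.z e) : IsReal β i := by
  refine hβ.monomials _ ⟨s, hs, fun l => e l * 2, fun l hl => ?_, ?_⟩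
  · have := he l hl
    change 0 ≤ e l * 2
    omega
  · rw [Subring.coe_mul, hi]
    unfold mon
    rw [← Finset.prod_mul_distrib]
    refine Finset.prod_congr rfl fun l _ => ?_
    rw [zpow_mul, zpow_ofNat, pow_two]

/-- sum of the coefficients -/
private noncomputable def sg (g : (Fin n → ℤ) →₀ ℤ) : ℤ :=
  Finsupp.linearCombination ℤ (fun _ : Fin n → ℤ => (1 : ℤ)) g

private theorem lc_mul_mon {z : Fin n → F} (hz : ∀ i, z i ≠ 0) (u : Fin n → ℤ)
    (g : (Fin n → ℤ) →₀ ℤ) :
    lc z (Finsupp.mapDomain (fun m => m + u) g) = lc z g * mon z u := by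
  unfold lc
  rw [Finsupp.linearCombination_mapDomain, Finsupp.linearCombination_apply,
    Finsupp.linearCombination_apply, Finsupp.sum, Finsupp.sum, Finset.sum_mul]
  apply Finset.sum_congr rfl
  intro m _
  rw [Function.comp_apply, mon_add hz, smul_mul_assoc]

private theorem lc_add (z : Fin n → F) (g g' : (Fin n → ℤ) →₀ ℤ) :
    lc z (g + g') = lc z g + lc z g' := by
  unfold lc
  rw [map_add]

private theorem lc_single (z : Fin n → F) (m : Fin n → ℤ) : lc z (Finsupp.single m 1) = mon z m := by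
  unfold lc
  rw [Finsupp.linearCombination_single, one_smul]

private theorem pow_mul_lc {z : Fin n → F} (hz : ∀ i, z i ≠ 0) (u v : Fin n → ℤ) (r : ℕ)
    (g : (Fin n → ℤ) →₀ ℤ) :
    ∃ G, (mon z u + mon z v) ^ r * lc z g = lc z G ∧ sg G = 2 ^ r * sg g := by
  induction r with
  | zero => exact ⟨g, by rw [pow_zero, one_mul], by rw [pow_zero, one_mul]⟩
  | succ r ih =>
    obtain ⟨G, h1, h2⟩ := ih
    refine ⟨Finsupp.mapDomain (fun m => m + u) G + Finsupp.mapDomain (fun m => m + v) G, ?_, ?_⟩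
    · rw [lc_add, lc_mul_mon hz, lc_mul_mon hz, ← h1, pow_succ]
      ring
    · have h3 : sg (Finsupp.mapDomain (fun m => m + u) G + Finsupp.mapDomain (fun m => m + v) G) =
          sg G + sg G := by
        unfold sg
        rw [map_add, Finsupp.linearCombination_mapDomain, Finsupp.linearCombination_mapDomain]
        rfl
      rw [h3, h2, pow_succ]
      ring

/-- a Laurent monomial in the cluster algebra has nonnegative exponents -/
private theorem exp_nonneg (hind : ∀ s, Reach M s₀ s → Ind s.z)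
    (hd : ∀ s, Reach M s₀ s → ∀ i ∈ M, s.b i i = 0)
    (hL : ∀ s, Reach M s₀ s → ∀ f : clAlg M V s₀, ∃ g, (f : F) = lc s.z g)
    (s : Seed F n) (hs : Reach M s₀ s) (x : clAlg M V s₀) (m : Fin n → ℤ)
    (hx : (x : F) = mon s.z m) (l : Fin n) (hlM : l ∈ M) : 0 ≤ m l := by
  classical
  by_contra hneg
  obtain ⟨r, hr⟩ : ∃ r : ℕ, m l = -(r : ℤ) := ⟨(-(m l)).toNat, by omega⟩
  have hr1 : r ≠ 0 := by omega
  have hs' : Reach M s₀ (s.mutate l) := Reach.step s l hlM hs
  have hz' := hind _ hs'
  obtain ⟨g, hg⟩ := hL _ hs' x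
  obtain ⟨P, hP⟩ : ∃ P, P = rhs s.z s.b l := ⟨_, rfl⟩
  have hz'def : (s.mutate l).z = Function.update s.z l (P / s.z l) := by rw [hP]; rfl
  have hne : ∀ i, i ≠ l → (s.mutate l).z i = s.z i := fun i hi => by
    rw [hz'def, Function.update_of_ne hi]
  have hl : (s.mutate l).z l = P / s.z l := by rw [hz'def, Function.update_self]
  have hPmon : P = mon (s.mutate l).z (fun i => ((s.b i l).toNat : ℤ)) +
      mon (s.mutate l).z (fun i => ((-(s.b i l)).toNat : ℤ)) := by
    rw [hP]
    unfold rhs mon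
    congr 1
    · refine Finset.prod_congr rfl fun i _ => ?_
      rw [zpow_natCast]
      by_cases hi : i = l
      · rw [hi, hd s hs l hlM]
        simp
      · rw [hne i hi]
    · refine Finset.prod_congr rfl fun i _ => ?_
      rw [zpow_natCast]
      by_cases hi : i = l
      · rw [hi, hd s hs l hlM]
        simp
      · rw [hne i hi]
  have hx' : P ^ r * (x : F) = mon (s.mutate l).z (Function.update m l (r : ℤ)) := by
    rw [hx]
    unfold mon
    rw [← Finset.mul_prod_erase _ _ (Finset.mem_univ l),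
      ← Finset.mul_prod_erase Finset.univ
        (fun i => (s.mutate l).z i ^ Function.update m l (r : ℤ) i) (Finset.mem_univ l)]
    rw [Function.update_self, hl, hr, zpow_neg, zpow_natCast, zpow_natCast, div_pow, ← mul_assoc,
      ← div_eq_mul_inv]
    congr 1
    refine Finset.prod_congr rfl fun i hi => ?_
    rw [Function.update_of_ne (Finset.ne_of_mem_erase hi), hne i (Finset.ne_of_mem_erase hi)]
  obtain ⟨G, h1, h2⟩ := pow_mul_lc hz'.1 (fun i => ((s.b i l).toNat : ℤ))
    (fun i => ((-(s.b i l)).toNat : ℤ)) r g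
  rw [← hg, ← hPmon, hx', ← lc_single] at h1
  have h3 : Finsupp.single (Function.update m l (r : ℤ)) 1 = G := hz'.2 h1
  have h4 : sg G = 1 := by
    rw [← h3]
    unfold sg
    rw [Finsupp.linearCombination_single]
    simp
  rw [h4] at h2
  have h5 : (2 : ℤ) ∣ 1 := by
    rw [h2]
    exact Dvd.dvd.mul_right (dvd_pow_self 2 hr1) _
  omega

private theorem single_of_mul {z : Fin n → F} (hz : Ind z) (g g' : (Fin n → ℤ) →₀ ℤ)
    (hg : ∀ m, 0 ≤ g m) (hg' : ∀ m, 0 ≤ g' m) (e : Fin n → ℤ) (h : lc z g * lc z g' = mon z e) :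
    ∃ m, lc z g = mon z m ∧ lc z g' = mon z (e - m) := by
  classical
  have hmon : mon z e ≠ 0 := Finset.prod_ne_zero_iff.2 fun i _ => zpow_ne_zero _ (hz.1 i)
  obtain ⟨G, hGdef⟩ : ∃ G : (Fin n → ℤ) →₀ ℤ,
    G = ∑ m ∈ g.support, g m • Finsupp.mapDomain (fun m' => m' + m) g' := ⟨_, rfl⟩
  have h1 : lc z G = lc z g * lc z g' := by
    have h2 : lc z G = ∑ m ∈ g.support, g m • (lc z g' * mon z m) := by
      rw [hGdef]
      have h3 : lc z (∑ m ∈ g.support, g m • Finsupp.mapDomain (fun m' => m' + m) g') =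
          ∑ m ∈ g.support, g m • lc z (Finsupp.mapDomain (fun m' => m' + m) g') := by
        unfold lc
        rw [map_sum]
        exact Finset.sum_congr rfl fun m _ => map_zsmul _ _ _
      rw [h3]
      exact Finset.sum_congr rfl fun m _ => by rw [lc_mul_mon hz.1]
    rw [h2]
    have h3 : lc z g = ∑ m ∈ g.support, g m • mon z m := by
      unfold lc
      rw [Finsupp.linearCombination_apply, Finsupp.sum]
    rw [h3, Finset.sum_mul]
    refine Finset.sum_congr rfl fun m _ => ?_
    rw [smul_mul_assoc, mul_comm (lc z g')]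
  have h2 : G = Finsupp.single e 1 := by
    apply hz.2
    change lc z G = lc z (Finsupp.single e 1)
    rw [h1, h, lc_single]
  have hval : ∀ x, G x = ∑ m ∈ g.support, g m * g' (x - m) := by
    intro x
    rw [hGdef, Finsupp.finsetSum_apply]
    refine Finset.sum_congr rfl fun m _ => ?_
    rw [Finsupp.smul_apply, smul_eq_mul]
    congr 1
    have h3 := Finsupp.mapDomain_apply (add_left_injective m) g' (x - m)
    simp only [sub_add_cancel] at h3
    exact h3
  have key : ∀ m ∈ g.support, ∀ m' ∈ g'.support, m + m' = e ∧ g m = 1 ∧ g' m' = 1 := by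
    intro m hm m' hm'
    have a1 : 1 ≤ g m := by
      have := hg m
      have := Finsupp.mem_support_iff.1 hm
      omega
    have a2 : 1 ≤ g' m' := by
      have := hg' m'
      have := Finsupp.mem_support_iff.1 hm'
      omega
    have a3 : g m * g' m' ≤ G (m + m') := by
      rw [hval]
      have h4 := Finset.single_le_sum (f := fun x => g x * g' (m + m' - x))
        (fun x _ => mul_nonneg (hg x) (hg' _)) hm
      simp only [add_sub_cancel_left] at h4
      exact h4
    rw [h2, Finsupp.single_apply] at a3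
    by_cases h5 : e = m + m'
    · rw [if_pos h5] at a3
      exact ⟨h5.symm, by nlinarith, by nlinarith⟩
    · rw [if_neg h5] at a3
      nlinarith
  have hg0 : g.support.Nonempty := by
    rw [Finset.nonempty_iff_ne_empty]
    intro h0
    rw [Finsupp.support_eq_empty] at h0
    apply hmon
    rw [← h, h0]
    unfold lc
    rw [map_zero, zero_mul]
  have hg0' : g'.support.Nonempty := by
    rw [Finset.nonempty_iff_ne_empty]
    intro h0
    rw [Finsupp.support_eq_empty] at h0
    apply hmon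
    rw [← h, h0]
    unfold lc
    rw [map_zero, mul_zero]
  obtain ⟨m, hm⟩ := hg0
  obtain ⟨m', hm'⟩ := hg0'
  obtain ⟨k1, k2, k3⟩ := key m hm m' hm'
  have e1 : g = Finsupp.single m 1 := by
    ext x
    rw [Finsupp.single_apply]
    by_cases hx : m = x
    · rw [if_pos hx, ← hx, k2]
    · rw [if_neg hx]
      by_contra hne
      have h6 := (key x (Finsupp.mem_support_iff.2 hne) m' hm').1
      exact hx (add_right_cancel (k1.trans h6.symm))
  have e2 : g' = Finsupp.single m' 1 := by
    ext x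
    rw [Finsupp.single_apply]
    by_cases hx : m' = x
    · rw [if_pos hx, ← hx, k3]
    · rw [if_neg hx]
      by_contra hne
      have h6 := (key m hm x (Finsupp.mem_support_iff.2 hne)).1
      exact hx (add_left_cancel (k1.trans h6.symm))
  refine ⟨m, by rw [e1, lc_single], ?_⟩
  rw [e2, lc_single, ← k1, add_sub_cancel_left]

/-- frozen variables do not change -/
private theorem z_frozen_irr (s : Seed F n) (hs : Reach M s₀ s) (l : Fin n) (hl : l ∉ M) :
    s.z l = s₀.z l := by
  induction hs with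
  | init => rfl
  | step s k hk _ ih =>
    change Function.update s.z k (rhs s.z s.b k / s.z k) l = s₀.z l
    rw [Function.update_of_ne (fun h : l = k => hl (by rw [h]; exact hk)), ih]

/-- a Laurent monomial in the inverted frozen variables lies in the cluster algebra -/
private theorem mon_mem (hMV : Disjoint M V) (s : Seed F n) (hs : Reach M s₀ s) (m : Fin n → ℤ)
    (hm : ∀ l, l ∉ V → m l = 0) : mon s.z m ∈ clAlg M V s₀ := by
  unfold mon
  refine Subring.prod_mem _ fun l _ => ?_
  by_cases hl : l ∈ V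
  · have hlM : l ∉ M := fun h => Finset.disjoint_left.1 hMV h hl
    rw [z_frozen_irr s hs l hlM]
    have h1 : s₀.z l ∈ clAlg M V s₀ := Subring.subset_closure (Or.inr (Or.inl ⟨l, hlM, rfl⟩))
    have h2 : (s₀.z l)⁻¹ ∈ clAlg M V s₀ := Subring.subset_closure (Or.inr (Or.inr ⟨l, hl, rfl⟩))
    obtain ⟨r, hr | hr⟩ := Int.eq_nat_or_neg (m l)
    · rw [hr, zpow_natCast]
      exact Subring.pow_mem _ h1 r
    · rw [hr, zpow_neg, zpow_natCast, ← inv_pow]
      exact Subring.pow_mem _ h2 r
  · rw [hm l hl, zpow_zero]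
    exact Subring.one_mem _

private theorem mon_unit (hMV : Disjoint M V) (s : Seed F n) (hs : Reach M s₀ s)
    (hz : ∀ l, s.z l ≠ 0) (m : Fin n → ℤ) (hm : ∀ l, l ∉ V → m l = 0) (x : clAlg M V s₀)
    (hx : (x : F) = mon s.z m) : IsUnit x := by
  refine IsUnit.of_mul_eq_one ⟨mon s.z (-m), mon_mem hMV s hs (-m) fun l hl => ?_⟩ ?_
  · rw [Pi.neg_apply, hm l hl, neg_zero]
  · apply Subtype.ext
    rw [Subring.coe_mul, hx, ← mon_add hz, add_neg_cancel]
    change mon s.z 0 = 1
    unfold mon
    exact Finset.prod_eq_one fun l _ => by rw [Pi.zero_apply, zpow_zero]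

/-- a Laurent monomial with at most one factor outside the inverted frozen variables is
indecomposable -/
theorem mon_indec (hβ : IsGood M V s₀ β) (hMV : Disjoint M V)
    (hind : ∀ s, Reach M s₀ s → Ind s.z) (hd : ∀ s, Reach M s₀ s → ∀ i ∈ M, s.b i i = 0)
    (hL : ∀ s, Reach M s₀ s → ∀ f : clAlg M V s₀, ∃ g, (f : F) = lc s.z g)
    (hfr : ∀ s, Reach M s₀ s → ∀ (f : clAlg M V s₀) (g : (Fin n → ℤ) →₀ ℤ), (f : F) = lc s.z g →
      ∀ m, g m ≠ 0 → ∀ j, j ∉ M → j ∉ V → 0 ≤ m j)
    (s : Seed F n) (hs : Reach M s₀ s) (j : Fin n) (e : Fin n → ℤ)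
    (he : ∀ i, i ∉ V → i ≠ j → e i = 0) (hej : j ∉ V → e j = 0 ∨ e j = 1) (i : ι)
    (hi : (β i : F) = mon s.z e) : IsIndec β i := by
  classical
  intro a c hac
  have hz := hind s hs
  obtain ⟨g, hg⟩ := hL s hs (β a)
  obtain ⟨g', hg'⟩ := hL s hs (β c)
  have h1 : lc s.z g * lc s.z g' = mon s.z e := by
    rw [← hg, ← hg', ← Subring.coe_mul, ← hac, hi]
  obtain ⟨m, e1, e2⟩ := single_of_mul hz g g' (coef_nonneg hβ s hs hz a g hg)
    (coef_nonneg hβ s hs hz c g' hg') _ h1
  rw [e1] at hg
  rw [e2] at hg'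
  have hpos : ∀ (x : clAlg M V s₀) (m' : Fin n → ℤ), (x : F) = mon s.z m' →
      ∀ l, l ∉ V → 0 ≤ m' l := by
    intro x m' hx l hlV
    by_cases hlM : l ∈ M
    · exact exp_nonneg hind hd hL s hs x m' hx l hlM
    · refine hfr s hs x (Finsupp.single m' 1) (by rw [lc_single, hx]) m' ?_ l hlM hlV
      rw [Finsupp.single_eq_same]
      exact one_ne_zero
  have n1 := hpos (β a) m hg
  have n2 := hpos (β c) _ hg'
  by_cases hm : ∀ l, l ∉ V → m l = 0
  · exact Or.inl (mon_unit hMV s hs hz.1 m hm _ hg)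
  · refine Or.inr (mon_unit hMV s hs hz.1 _ (fun l hl => ?_) _ hg')
    have a1 := n1 l hl
    have a2 := n2 l hl
    rw [Pi.sub_apply] at a2 ⊢
    by_cases hlj : l = j
    · subst hlj
      push Not at hm
      obtain ⟨l', hl'V, hl'⟩ := hm
      have b1 := n1 l' hl'V
      have b2 := n2 l' hl'V
      rw [Pi.sub_apply] at b2
      by_cases hl'l : l' = l
      · rw [hl'l] at hl' b1 b2
        rcases hej hl with h | h <;> omega
      · rw [he l' hl'V hl'l] at b2
        omega
    · rw [he l hl hlj] at a2 ⊢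
      omega

end Pool.Agent.CluF
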