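import Pool.Agent.CluF.Ineq
import Pool.Agent.CluF.Irr
import Pool.Agent.CluF.Fork

/-!
# The equality of the two regions, with frozen variables
-/

namespace Pool.Agent.CluF

open Pool.Agent.CluN

variable {F : Type} [Field F] {n : ℕ} {M V : Finset (Fin n)} {s₀ : Seed F n} {ι : Type}
  {β : Module.Basis ι ℤ (clAlg M V s₀)}

theorem mReach_of_reach (s : Seed F n) (h : Reach M s₀ s) : MReach M s₀.b s.b := by
  induction h with
  | init => exact MReach.init
  | step s k hk _ ih => exact MReach.step _ k hk ih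

theorem z_const (s : Seed F n) (hs : Reach M s₀ s) (j : Fin n) (hj : j ∉ M) : s.z j = s₀.z j := by
  induction hs with
  | init => rfl
  | step s k hk _ ih =>
    have hjk : j ≠ k := by rintro rfl; exact hj hk
    rw [mutate_z, newz_of_ne _ _ hjk, ih]

theorem mon_single_one (z : Fin n → F) (j : Fin n) (a : ℤ) : mon z (Pi.single j a) = z j ^ a := by
  unfold mon
  rw [Finset.prod_eq_single j]
  · simp
  · intro b _ hb; simp [hb]
  · intro h; exact absurd (Finset.mem_univ j) h

theorem exists_basis_mon (hβ : IsGood M V s₀ β) (s : Seed F n) (hs : Reach M s₀ s)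
    (e : Fin n → ℤ) (he : ∀ i, i ∉ V → 0 ≤ e i) (x : clAlg M V s₀) (hx : (x : F) = mon s.z e) :
    ∃ i, β i = x := hβ.monomials x ⟨s, hs, e, he, hx⟩

/-- the inverse of an inverted frozen variable -/
theorem inv_mem (j : Fin n) (hj : j ∈ V) : (s₀.z j)⁻¹ ∈ clAlg M V s₀ :=
  Subring.subset_closure (Or.inr (Or.inr ⟨j, hj, rfl⟩))

theorem regionsF (hMV : Disjoint M V) (hM : M.Nonempty) (hs : IsSeed M s₀)
    (h : (AbundantOn M s₀.b ∧ (M.card ≤ 2 ∨ AcyclicOn M s₀.b)) ∨
      ∀ b, MReach M s₀.b b → AbundantOn M b)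
    (hβ : IsGood M V s₀ β) :
    superunitary β = realSuperunitary β ∧
      superunitary β = {p | ∀ x : clAlg M V s₀,
        (IsClusterVar M s₀ (x : F) → 1 ≤ p x) ∧ (IsFrozenVar M s₀ (x : F) → 1 ≤ p x) ∧
        ((∃ i ∈ V, (x : F) = s₀.z i) → p x = 1)} := by
  classical
  have hA : ∀ b, MReach M s₀.b b → AbundantOn M b := by
    rcases h with ⟨h1, h2⟩ | h
    · exact abundantOn_of_acyclicOn M s₀.b hs.2 h2 h1
    · exact h
  have hA' : ∀ s, Reach M s₀ s → AbundantOn M s.b := fun s hr => hA _ (mReach_of_reach s hr)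
  have hF : ∀ s, Reach M s₀ s → FineF M s :=
    fineF_of_reach (ind_of_algebraicIndependent _ hs.1) hs.2
      (fun s hr i hi j hj hij => (hA' s hr i hi j hj hij).1)
  obtain ⟨i₀, hi₀⟩ := hM
  have hVM : ∀ j ∈ V, j ∉ M := fun j hj hjM => (Finset.disjoint_left.1 hMV hjM) hj
  -- basis elements
  have hcv : ∀ s (hr : Reach M s₀ s) j, ∃ i, β i = cv M V s₀ s hr j := by
    intro s hr j
    refine exists_basis_mon hβ s hr (Pi.single j 1) (fun i _ => ?_) _ ?_
    · by_cases hij : i = j
      · rw [hij, Pi.single_eq_same]; norm_num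
      · rw [Pi.single_eq_of_ne hij]
    · rw [mon_single_one, zpow_one]; rfl
  have hinv : ∀ j (hj : j ∈ V), ∃ i, β i = ⟨(s₀.z j)⁻¹, inv_mem j hj⟩ := by
    intro j hj
    refine exists_basis_mon hβ s₀ Reach.init (Pi.single j (-1)) (fun i hi => ?_) _ ?_
    · have hij : i ≠ j := by rintro rfl; exact hi hj
      rw [Pi.single_eq_of_ne hij]
    · rw [mon_single_one, zpow_neg, zpow_one]
  have hmul : ∀ s (hr : Reach M s₀ s) j (hj : j ∈ V) (p : clAlg M V s₀ →+* ℝ),
      p (cv M V s₀ s hr j) * p ⟨(s₀.z j)⁻¹, inv_mem j hj⟩ = 1 := by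
    intro s hr j hj p
    rw [← map_mul, ← map_one p]
    congr 1
    apply Subtype.ext
    change s.z j * (s₀.z j)⁻¹ = 1
    rw [z_const s hr j (hVM j hj)]
    exact mul_inv_cancel₀ ((hF s₀ Reach.init).ind.1 j)
  have key : ∀ p : clAlg M V s₀ →+* ℝ,
      (∀ s (hr : Reach M s₀ s) j, 1 ≤ p (cv M V s₀ s hr j)) →
      (∀ s (hr : Reach M s₀ s), ∀ j ∈ V, p (cv M V s₀ s hr j) = 1) → ∀ i, 1 ≤ p (β i) := by
    intro p hp hpV i
    have hpos : ∀ k, 0 < p (β k) := by
      intro k
      have hFs := hF s₀ Reach.init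
      obtain ⟨g, hg⟩ := exists_lcF hMV hF s₀ Reach.init i₀ hi₀ (β k : F) (β k).2
      have hg0 : g ≠ 0 := by
        rintro rfl
        have : (β k : F) = 0 := by rw [hg]; unfold lc; simp
        exact β.ne_zero k (Subtype.ext this)
      obtain ⟨m, hm⟩ := Finsupp.ne_iff.1 hg0
      exact (log_ge hβ s₀ Reach.init hFs.ind k g hg p (hp s₀ Reach.init) m (by simpa using hm)).1
    exact one_le_basisF hMV hF hA' hβ p hp hpV hpos ⟨i₀, hi₀⟩ i
  have hL : ∀ s, Reach M s₀ s → ∀ f : clAlg M V s₀, ∃ g, (f : F) = lc s.z g :=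
    fun s hr f => exists_lcF hMV hF s hr i₀ hi₀ (f : F) f.2
  have hfr : ∀ s, Reach M s₀ s → ∀ (f : clAlg M V s₀) (g : (Fin n → ℤ) →₀ ℤ), (f : F) = lc s.z g →
      ∀ m, g m ≠ 0 → ∀ j, j ∉ M → j ∉ V → 0 ≤ m j :=
    fun s hr f g hg m hm j hj hjV => frozen_support hMV hF s hr (f : F) f.2 g hg m hm j hj hjV
  have hind := fun s hr => (hF s hr).ind
  have hd : ∀ s, Reach M s₀ s → ∀ i ∈ M, s.b i i = 0 :=
    fun s hr i hi => skewOn_diag (hF s hr).skew i hi
  constructor
  · apply Set.Subset.antisymm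
    · intro p hp
      refine ⟨fun x hx => ?_, fun i _ _ => hp i⟩
      obtain ⟨s, hr, j, -, hj⟩ := hx
      obtain ⟨i, hi⟩ := hcv s hr j
      have h1 : x = cv M V s₀ s hr j := Subtype.ext hj
      have := hp i
      rw [h1, ← hi]
      linarith
    · rintro p ⟨-, hp⟩
      have h1 : ∀ s (hr : Reach M s₀ s) j, 1 ≤ p (cv M V s₀ s hr j) := by
        intro s hr j
        obtain ⟨i, hi⟩ := hcv s hr j
        have hmon : (β i : F) = mon s.z (Pi.single j 1) := by
          rw [hi, mon_single_one, zpow_one]; rfl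
        rw [← hi]
        refine hp i (mon_real hβ s hr _ (fun l _ => ?_) i hmon)
          (mon_indec hβ hMV hind hd hL hfr s hr j _ (fun l _ hlj => ?_) (fun _ => ?_) i hmon)
        · by_cases hlj : l = j
          · rw [hlj, Pi.single_eq_same]; norm_num
          · rw [Pi.single_eq_of_ne hlj]
        · rw [Pi.single_eq_of_ne hlj]
        · right; rw [Pi.single_eq_same]
      have h2 : ∀ j (hj : j ∈ V), 1 ≤ p ⟨(s₀.z j)⁻¹, inv_mem j hj⟩ := by
        intro j hj
        obtain ⟨i, hi⟩ := hinv j hj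
        have hmon : (β i : F) = mon s₀.z (Pi.single j (-1)) := by
          rw [hi, mon_single_one, zpow_neg, zpow_one]
        rw [← hi]
        refine hp i (mon_real hβ s₀ Reach.init _ (fun l hl => ?_) i hmon)
          (mon_indec hβ hMV hind hd hL hfr s₀ Reach.init j _ (fun l _ hlj => ?_)
            (fun hjV => absurd hj hjV) i hmon)
        · have hlj : l ≠ j := by rintro rfl; exact hl hj
          rw [Pi.single_eq_of_ne hlj]
        · rw [Pi.single_eq_of_ne hlj]
      apply key p h1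
      intro s hr j hj
      have a1 := h1 s hr j
      have a2 := h2 j hj
      have a3 := hmul s hr j hj p
      nlinarith
  · apply Set.Subset.antisymm
    · intro p hp x
      refine ⟨fun hx => ?_, fun hx => ?_, fun hx => ?_⟩
      · obtain ⟨s, hr, j, -, hj⟩ := hx
        obtain ⟨i, hi⟩ := hcv s hr j
        have h1 : x = cv M V s₀ s hr j := Subtype.ext hj
        rw [h1, ← hi]
        exact hp i
      · obtain ⟨j, -, hj⟩ := hx
        obtain ⟨i, hi⟩ := hcv s₀ Reach.init j
        have h1 : x = cv M V s₀ s₀ Reach.init j := Subtype.ext hj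
        rw [h1, ← hi]
        exact hp i
      · obtain ⟨j, hj, hxj⟩ := hx
        obtain ⟨i, hi⟩ := hcv s₀ Reach.init j
        obtain ⟨i', hi'⟩ := hinv j hj
        have h1 : x = cv M V s₀ s₀ Reach.init j := Subtype.ext hxj
        have a1 := hp i
        have a2 := hp i'
        rw [hi] at a1
        rw [hi'] at a2
        have a3 := hmul s₀ Reach.init j hj p
        rw [h1]
        nlinarith
    · intro p hp
      apply key p
      · intro s hr j
        by_cases hj : j ∈ M
        · exact (hp _).1 ⟨s, hr, j, hj, rfl⟩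
        · exact (hp _).2.1 ⟨j, hj, z_const s hr j hj⟩
      · intro s hr j hj
        exact (hp _).2.2 ⟨j, hj, z_const s hr j (hVM j hj)⟩

end Pool.Agent.CluF
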