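import Pool.Agent.CluF.Defs
import Pool.Agent.CluN.Expand

/-!
# Good bases: positivity of the Laurent expansions and the basic inequality
-/

namespace Pool.Agent.CluF

open Pool.Agent.CluN

variable {F : Type} [Field F] {n : ℕ} {M V : Finset (Fin n)} {s₀ : Seed F n} {ι : Type}
  {β : Module.Basis ι ℤ (clAlg M V s₀)}

/-- the frozen variables never change -/
theorem z_frozen {s : Seed F n} (hs : Reach M s₀ s) {j : Fin n} (hj : j ∉ M) :
    s.z j = s₀.z j := by
  induction hs with
  | init => rfl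
  | step s k hk _ ih =>
    have hjk : j ≠ k := fun h => hj (h ▸ hk)
    change Function.update s.z k _ j = s₀.z j
    rw [Function.update_of_ne hjk, ih]

theorem z_mem (s : Seed F n) (hs : Reach M s₀ s) (j : Fin n) : s.z j ∈ clAlg M V s₀ := by
  by_cases hj : j ∈ M
  · exact Subring.subset_closure (Or.inl ⟨s, hs, j, hj, rfl⟩)
  · exact Subring.subset_closure (Or.inr (Or.inl ⟨j, hj, z_frozen hs hj⟩))

/-- the elements of the extended cluster of a reachable seed as elements of the cluster algebra -/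
def cv (M V : Finset (Fin n)) (s₀ : Seed F n) (s : Seed F n) (hs : Reach M s₀ s) (j : Fin n) :
    clAlg M V s₀ :=
  ⟨s.z j, z_mem s hs j⟩

/-- cluster monomials, the exponents shifted by `K` -/
private def Em (M V : Finset (Fin n)) (s₀ : Seed F n) (s : Seed F n) (hs : Reach M s₀ s) (K : ℕ) (m : Fin n → ℤ) :
    clAlg M V s₀ := ∏ j, cv M V s₀ s hs j ^ (m j + K).toNat

private lemma Em_coe (s : Seed F n) (hs : Reach M s₀ s) (K : ℕ) (m : Fin n → ℤ) :
    (Em M V s₀ s hs K m : F) = ∏ j, s.z j ^ (m j + K).toNat := by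
  unfold Em
  rw [← Subring.coe_subtype, map_prod]
  rfl

private lemma Em_mon (s : Seed F n) (hs : Reach M s₀ s) (K : ℕ) (m : Fin n → ℤ)
    (h : ∀ j, 0 ≤ m j + K) : (Em M V s₀ s hs K m : F) = mon s.z (m + fun _ => (K : ℤ)) := by
  rw [Em_coe]
  unfold mon
  apply Finset.prod_congr rfl
  intro j _
  rw [Pi.add_apply, ← zpow_natCast, Int.toNat_of_nonneg (h j)]

private lemma Em_range (hβ : IsGood M V s₀ β) (s : Seed F n) (hs : Reach M s₀ s) (K : ℕ)
    (m : Fin n → ℤ) : ∃ i, β i = Em M V s₀ s hs K m :=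
  hβ.monomials _ ⟨s, hs, fun j => ((m j + K).toNat : ℤ), fun _ _ => Int.natCast_nonneg _, by
    rw [Em_coe]
    exact Finset.prod_congr rfl fun j _ => (zpow_natCast _ _).symm⟩

private lemma exists_K (g : (Fin n → ℤ) →₀ ℤ) (m : Fin n → ℤ) :
    ∃ K : ℕ, (∀ j, 0 ≤ m j + K) ∧ ∀ m' ∈ g.support, ∀ j, 0 ≤ m' j + K := by
  classical
  have key : ∀ m' ∈ insert m g.support, ∀ j, (m' j).natAbs ≤
      (insert m g.support).sup (fun m' => Finset.univ.sup (fun j => (m' j).natAbs)) := by
    intro m' hm' j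
    have h1 : (m' j).natAbs ≤ Finset.univ.sup (fun j => (m' j).natAbs) :=
      Finset.le_sup (f := fun j => (m' j).natAbs) (Finset.mem_univ j)
    have h2 : Finset.univ.sup (fun j => (m' j).natAbs) ≤
        (insert m g.support).sup (fun m' => Finset.univ.sup (fun j => (m' j).natAbs)) :=
      Finset.le_sup (f := fun m' : Fin n → ℤ => Finset.univ.sup (fun j => (m' j).natAbs)) hm'
    exact h1.trans h2
  refine ⟨(insert m g.support).sup (fun m' => Finset.univ.sup (fun j => (m' j).natAbs)), ?_, ?_⟩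
  · intro j
    have := key m (Finset.mem_insert_self _ _) j
    omega
  · intro m' hm' j
    have := key m' (Finset.mem_insert_of_mem hm') j
    omega

private lemma expansion (s : Seed F n) (hs : Reach M s₀ s) (hz : Ind s.z)
    (k : ι) (g : (Fin n → ℤ) →₀ ℤ) (h : (β k : F) = lc s.z g) (K : ℕ)
    (hK : ∀ m' ∈ g.support, ∀ j, 0 ≤ m' j + K) :
    Em M V s₀ s hs K (fun _ => 0) * β k = ∑ m' ∈ g.support, g m' • Em M V s₀ s hs K m' := by
  apply Subtype.ext
  have h1 : ((∑ m' ∈ g.support, g m' • Em M V s₀ s hs K m' : clAlg M V s₀) : F) =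
      ∑ m' ∈ g.support, g m' • (Em M V s₀ s hs K m' : F) := by
    rw [← Subring.coe_subtype, map_sum]
    apply Finset.sum_congr rfl
    intro m' _
    rw [map_zsmul]
  rw [h1, Subring.coe_mul, h, Em_mon s hs K _ (fun j => by positivity)]
  unfold lc
  rw [Finsupp.linearCombination_apply, Finsupp.sum, Finset.mul_sum]
  apply Finset.sum_congr rfl
  intro m' hm'
  rw [Em_mon s hs K m' (hK m' hm'), mul_smul_comm, ← mon_add hz.1]
  congr 2
  funext j
  simp only [Pi.add_apply]
  ring

/-- the Laurent expansion of an element of a good basis has nonnegative coefficients -/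
theorem coef_nonneg (hβ : IsGood M V s₀ β) (s : Seed F n) (hs : Reach M s₀ s) (hz : Ind s.z)
    (k : ι) (g : (Fin n → ℤ) →₀ ℤ) (h : (β k : F) = lc s.z g) (m : Fin n → ℤ) : 0 ≤ g m := by
  classical
  obtain ⟨K, hKm, hK⟩ := exists_K g m
  have h1 := expansion s hs hz k g h K hK
  choose idx hidx using fun m' => Em_range hβ s hs K m'
  have h2 : β (idx fun _ => 0) * β k = ∑ m' ∈ g.support, g m' • β (idx m') := by
    rw [hidx, h1]
    apply Finset.sum_congr rfl
    intro m' _
    rw [hidx]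
  have h3 := hβ.nonneg (idx fun _ => 0) k (idx m)
  rw [h2, map_sum, Finsupp.finsetSum_apply] at h3
  have h4 : ∀ m' : Fin n → ℤ, (∀ j, 0 ≤ m' j + K) → idx m' = idx m → m' = m := by
    intro m' hm' he
    have h5 : (Em M V s₀ s hs K m' : F) = (Em M V s₀ s hs K m : F) := by rw [← hidx, ← hidx, he]
    rw [Em_mon s hs K m' hm', Em_mon s hs K m hKm] at h5
    have h6 := hz.2.injective h5
    exact add_right_cancel h6
  have h5 : ∑ m' ∈ g.support, (β.repr (g m' • β (idx m'))) (idx m) = g m := by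
    rw [Finset.sum_eq_single m]
    · rw [map_zsmul, Module.Basis.repr_self, Finsupp.smul_apply, Finsupp.single_eq_same]
      simp
    · intro m' hm' hne
      rw [map_zsmul, Module.Basis.repr_self, Finsupp.smul_apply, Finsupp.single_apply, if_neg]
      · simp
      · intro he
        exact hne (h4 m' (hK m' hm') he)
    · intro hm
      rw [Finsupp.notMem_support_iff.1 hm]
      simp
  rw [h5] at h3
  exact h3

theorem log_ge (hβ : IsGood M V s₀ β) (s : Seed F n) (hs : Reach M s₀ s) (hz : Ind s.z)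
    (k : ι) (g : (Fin n → ℤ) →₀ ℤ) (h : (β k : F) = lc s.z g) (p : clAlg M V s₀ →+* ℝ)
    (hp : ∀ j, 1 ≤ p (cv M V s₀ s hs j)) (m : Fin n → ℤ) (hm : g m ≠ 0) :
    0 < p (β k) ∧ ∑ j, m j * Real.log (p (cv M V s₀ s hs j)) ≤ Real.log (p (β k)) := by
  classical
  obtain ⟨K, hKm, hK⟩ := exists_K g m
  have h1 := congrArg p (expansion s hs hz k g h K hK)
  have hpos : ∀ j, 0 < p (cv M V s₀ s hs j) := fun j => one_pos.trans_le (hp j)
  have hE : ∀ m', p (Em M V s₀ s hs K m') = ∏ j, p (cv M V s₀ s hs j) ^ (m' j + K).toNat := by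
    intro m'
    unfold Em
    rw [map_prod]
    apply Finset.prod_congr rfl
    intro j _
    rw [map_pow]
  have hEpos : ∀ m', 0 < p (Em M V s₀ s hs K m') := by
    intro m'
    rw [hE]
    exact Finset.prod_pos (fun j _ => pow_pos (hpos j) _)
  have hlog : ∀ m', Real.log (p (Em M V s₀ s hs K m')) =
      ∑ j, ((m' j + K).toNat : ℝ) * Real.log (p (cv M V s₀ s hs j)) := by
    intro m'
    rw [hE, Real.log_prod (fun j _ => (pow_pos (hpos j) _).ne')]
    apply Finset.sum_congr rfl
    intro j _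
    rw [Real.log_pow]
  rw [map_mul, map_sum] at h1
  have hg : ∀ m', 0 ≤ g m' := coef_nonneg hβ s hs hz k g h
  have hgm : (1 : ℝ) ≤ g m := by
    have := hg m
    have h2 : (1 : ℤ) ≤ g m := by omega
    exact_mod_cast h2
  have h2 : p (Em M V s₀ s hs K m) ≤ p (Em M V s₀ s hs K (fun _ => 0)) * p (β k) := by
    rw [h1]
    have h3 : ∀ m' ∈ g.support, 0 ≤ p (g m' • Em M V s₀ s hs K m') := by
      intro m' _
      rw [map_zsmul, zsmul_eq_mul]
      exact mul_nonneg (by exact_mod_cast hg m') (hEpos m').le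
    refine le_trans ?_ (Finset.single_le_sum h3 (Finsupp.mem_support_iff.2 hm))
    rw [map_zsmul, zsmul_eq_mul]
    exact le_mul_of_one_le_left (hEpos m).le hgm
  have hk : 0 < p (β k) := by
    by_contra hc
    have h3 := mul_nonpos_of_nonneg_of_nonpos (hEpos (fun _ => 0)).le (not_lt.1 hc)
    exact absurd (hEpos m) (not_lt.2 (h2.trans h3))
  refine ⟨hk, ?_⟩
  have h4 := Real.log_le_log (hEpos m) h2
  rw [Real.log_mul (hEpos _).ne' hk.ne', hlog, hlog] at h4
  have h5 : ∑ j, (m j : ℝ) * Real.log (p (cv M V s₀ s hs j)) =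
      ∑ j, ((m j + K).toNat : ℝ) * Real.log (p (cv M V s₀ s hs j)) -
        ∑ j, (((fun _ => 0 : Fin n → ℤ) j + K).toNat : ℝ) * Real.log (p (cv M V s₀ s hs j)) := by
    rw [← Finset.sum_sub_distrib]
    apply Finset.sum_congr rfl
    intro j _
    have h6 : (((m j + K).toNat : ℕ) : ℝ) = m j + K := by
      have h7 : (((m j + K).toNat : ℕ) : ℤ) = m j + K := Int.toNat_of_nonneg (hKm j)
      exact_mod_cast h7
    rw [h6]
    simp only [zero_add, Int.toNat_natCast]
    ring
  rw [h5]
  linarith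

end Pool.Agent.CluF
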