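import Pool.Agent.CluF.Reach
import Pool.Agent.CluF.Pos
import Pool.Agent.CluN.Num

/-!
# Elements of good bases are at least one where the cluster variables are
-/

namespace Pool.Agent.CluF

open Pool.Agent.CluN

variable {F : Type} [Field F] {n : ℕ} {M V : Finset (Fin n)} {s₀ : Seed F n} {ι : Type}
  {β : Module.Basis ι ℤ (clAlg M V s₀)}

/-- the elements of the algebra as Laurent polynomials -/
theorem exists_lcF (hMV : Disjoint M V) (hF : ∀ s, Reach M s₀ s → FineF M s) (s : Seed F n)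
    (hs : Reach M s₀ s) (i : Fin n) (hi : i ∈ M) (f : F) (hf : f ∈ clAlg M V s₀) :
    ∃ g, f = lc s.z g :=
  exists_lc (hF s hs).ind i _ f (mem_TT_of_mem_UpF (hF s hs) _ (clAlg_le hMV hF s hs hf) i hi)

theorem frozen_support (hMV : Disjoint M V) (hF : ∀ s, Reach M s₀ s → FineF M s) (s : Seed F n)
    (hs : Reach M s₀ s) (f : F) (hf : f ∈ clAlg M V s₀) (g : (Fin n → ℤ) →₀ ℤ) (hg : f = lc s.z g)
    (m : Fin n → ℤ) (hm : g m ≠ 0) (j : Fin n) (hj : j ∉ M) (hjV : j ∉ V) : 0 ≤ m j := by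
  have h1 := ordGe_frozen hMV hF j hj hjV f hf s hs
  rw [hg] at h1
  have := support_of_ordGe (hF s hs).ind g j 0 h1 m hm
  simpa using this

/-- the basic inequality: a high power of `z i` occurs, the other denominators are bounded -/
theorem main_ineqF (hMV : Disjoint M V) (hF : ∀ s, Reach M s₀ s → FineF M s)
    (hβ : IsGood M V s₀ β) (s : Seed F n)
    (hs : Reach M s₀ s) (k : ι) (p : clAlg M V s₀ →+* ℝ)
    (hp : ∀ j, 1 ≤ p (cv M V s₀ s hs j)) (hpV : ∀ j ∈ V, p (cv M V s₀ s hs j) = 1)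
    (i : Fin n) (hi : i ∈ M) (D : Fin n → ℕ)
    (hD : ∀ j ∈ M, j ≠ i → OrdGe (Ck s.z j) (s.z j) (D j) (β k : F)) (E : ℕ) (hE : 1 ≤ E)
    (hdeg : ¬ DegLe (Ck s.z i) (s.z i) (E - 1) (β k : F)) :
    E * Real.log (p (cv M V s₀ s hs i)) -
      ∑ j ∈ M.erase i, D j * Real.log (p (cv M V s₀ s hs j)) ≤ Real.log (p (β k)) := by
  classical
  have hFs := hF s hs
  obtain ⟨g, hg⟩ := exists_lcF hMV hF s hs i hi (β k : F) (β k).2
  obtain ⟨m, hm, hmi⟩ : ∃ m, g m ≠ 0 ∧ (E : ℤ) ≤ m i := by
    by_contra hno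
    push Not at hno
    apply hdeg
    rw [hg]
    refine degLe_of_support hFs.ind g i (E - 1) fun m hm => ?_
    have := hno m hm
    omega
  have h1 := (log_ge hβ s hs hFs.ind k g hg p hp m hm).2
  refine le_trans ?_ h1
  have hl : ∀ j, 0 ≤ Real.log (p (cv M V s₀ s hs j)) := fun j => Real.log_nonneg (hp j)
  have h2 : ∀ j, j ≠ i → (if j ∈ M then -((D j : ℝ) * Real.log (p (cv M V s₀ s hs j))) else 0) ≤
      m j * Real.log (p (cv M V s₀ s hs j)) := by
    intro j hj
    by_cases hjM : j ∈ M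
    · rw [if_pos hjM]
      have h3 := hD j hjM hj
      rw [hg] at h3
      have h4 := support_of_ordGe hFs.ind g j (D j) h3 m hm
      have h5 : -(D j : ℝ) ≤ m j := by exact_mod_cast h4
      have := mul_le_mul_of_nonneg_right h5 (hl j)
      linarith
    · rw [if_neg hjM]
      by_cases hjV : j ∈ V
      · rw [hpV j hjV, Real.log_one, mul_zero]
      · have h4 := frozen_support hMV hF s hs (β k : F) (β k).2 g hg m hm j hjM hjV
        exact mul_nonneg (by exact_mod_cast h4) (hl j)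
  rw [← Finset.add_sum_erase Finset.univ _ (Finset.mem_univ i), sub_eq_add_neg,
    ← Finset.sum_neg_distrib]
  apply add_le_add
  · exact mul_le_mul_of_nonneg_right (by exact_mod_cast hmi) (hl i)
  · have h3 : ∑ j ∈ M.erase i, -((D j : ℝ) * Real.log (p (cv M V s₀ s hs j))) =
        ∑ j ∈ Finset.univ.erase i,
          (if j ∈ M then -((D j : ℝ) * Real.log (p (cv M V s₀ s hs j))) else 0) := by
      rw [← Finset.sum_filter]
      refine Finset.sum_congr ?_ fun _ _ => rfl
      ext j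
      simp only [Finset.mem_erase, Finset.mem_filter, Finset.mem_univ, and_true]
    rw [h3]
    exact Finset.sum_le_sum fun j hj => h2 j (Finset.ne_of_mem_erase hj)

theorem nonneg_of_no_denominatorsF (hMV : Disjoint M V) (hF : ∀ s, Reach M s₀ s → FineF M s)
    (hβ : IsGood M V s₀ β) (s : Seed F n) (hs : Reach M s₀ s) (k : ι) (p : clAlg M V s₀ →+* ℝ)
    (hp : ∀ j, 1 ≤ p (cv M V s₀ s hs j)) (hpV : ∀ j ∈ V, p (cv M V s₀ s hs j) = 1)
    (hD : ∀ j ∈ M, OrdGe (Ck s.z j) (s.z j) 0 (β k : F)) (i : Fin n) (hi : i ∈ M) :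
    0 ≤ Real.log (p (β k)) := by
  have hFs := hF s hs
  obtain ⟨g, hg⟩ := exists_lcF hMV hF s hs i hi (β k : F) (β k).2
  have hg0 : g ≠ 0 := by
    rintro rfl
    have : (β k : F) = 0 := by rw [hg]; unfold lc; simp
    exact β.ne_zero k (Subtype.ext this)
  obtain ⟨m, hm⟩ := Finsupp.ne_iff.1 hg0
  have hm' : g m ≠ 0 := by simpa using hm
  refine le_trans ?_ (log_ge hβ s hs hFs.ind k g hg p hp m hm').2
  refine Finset.sum_nonneg fun j _ => ?_
  by_cases hjV : j ∈ V
  · rw [hpV j hjV, Real.log_one, mul_zero]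
  refine mul_nonneg ?_ (Real.log_nonneg (hp j))
  have h3 : (0 : ℤ) ≤ m j := by
    by_cases hjM : j ∈ M
    · have := hD j hjM
      rw [hg] at this
      have h2 := support_of_ordGe hFs.ind g j 0 this m hm'
      simpa using h2
    · exact frozen_support hMV hF s hs (β k : F) (β k).2 g hg m hm' j hjM hjV
  exact_mod_cast h3

/-- the exchange relation at `p` -/
theorem exchange_logF (s : Seed F n) (hs : Reach M s₀ s) (hFs : FineF M s)
    (p : clAlg M V s₀ →+* ℝ) (hp : ∀ j, 1 ≤ p (cv M V s₀ s hs j)) (i : Fin n) (hi : i ∈ M)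
    (hp' : 1 ≤ p (cv M V s₀ (s.mutate i) (Reach.step s i hi hs) i)) :
    (∑ j, (max (s.b j i) 0 : ℤ) * Real.log (p (cv M V s₀ s hs j)) ≤
      Real.log (p (cv M V s₀ s hs i)) +
        Real.log (p (cv M V s₀ (s.mutate i) (Reach.step s i hi hs) i))) ∧
    (∑ j, (max (-(s.b j i)) 0 : ℤ) * Real.log (p (cv M V s₀ s hs j)) ≤
      Real.log (p (cv M V s₀ s hs i)) +
        Real.log (p (cv M V s₀ (s.mutate i) (Reach.step s i hi hs) i))) := by
  set v : Fin n → ℝ := fun j => p (cv M V s₀ s hs j) with hv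
  set v' : ℝ := p (cv M V s₀ (s.mutate i) (Reach.step s i hi hs) i) with hv'
  have hv0 : ∀ j, 0 < v j := fun j => one_pos.trans_le (hp j)
  have hv'0 : 0 < v' := one_pos.trans_le hp'
  have hrel : v i * v' = ∏ j, v j ^ (s.b j i).toNat + ∏ j, v j ^ (-(s.b j i)).toNat := by
    have h1 : cv M V s₀ s hs i * cv M V s₀ (s.mutate i) (Reach.step s i hi hs) i =
        ∏ j, cv M V s₀ s hs j ^ (s.b j i).toNat + ∏ j, cv M V s₀ s hs j ^ (-(s.b j i)).toNat := by
      apply Subtype.ext
      have h2 : ∀ e : Fin n → ℕ, ((∏ j, cv M V s₀ s hs j ^ e j : clAlg M V s₀) : F) =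
          ∏ j, s.z j ^ e j := by
        intro e
        rw [← Subring.coe_subtype, map_prod]
        refine Finset.prod_congr rfl fun j _ => ?_
        rw [map_pow]; rfl
      rw [Subring.coe_mul, Subring.coe_add, h2, h2]
      change s.z i * (s.mutate i).z i = _
      rw [mutate_z, newz_self]
      have := hFs.ind.1 i
      rw [mul_div_cancel₀ _ this]
      rfl
    have h2 := congrArg p h1
    rw [map_mul, map_add, map_prod, map_prod] at h2
    simp only [map_pow] at h2
    exact h2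
  have hprod : ∀ e : Fin n → ℕ, 0 < ∏ j, v j ^ e j := fun e =>
    Finset.prod_pos fun j _ => pow_pos (hv0 j) _
  have hlog : ∀ e : Fin n → ℕ, Real.log (∏ j, v j ^ e j) = ∑ j, (e j : ℝ) * Real.log (v j) := by
    intro e
    rw [Real.log_prod (fun j _ => (pow_pos (hv0 j) _).ne')]
    refine Finset.sum_congr rfl fun j _ => ?_
    rw [Real.log_pow]
  have hsum : Real.log (v i) + Real.log v' = Real.log (v i * v') :=
    (Real.log_mul (hv0 i).ne' hv'0.ne').symm
  have hcast : ∀ a : ℤ, ((max a 0 : ℤ) : ℝ) = (a.toNat : ℝ) := by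
    intro a
    rw [← Int.toNat_eq_max, Int.cast_natCast]
  constructor
  · rw [hsum, hrel]
    have h1 := Real.log_le_log (hprod fun j => (s.b j i).toNat)
      (le_add_of_nonneg_right (hprod fun j => (-(s.b j i)).toNat).le)
    rw [hlog] at h1
    refine le_trans (le_of_eq ?_) h1
    exact Finset.sum_congr rfl fun j _ => by rw [hcast]
  · rw [hsum, hrel]
    have h1 := Real.log_le_log (hprod fun j => (-(s.b j i)).toNat)
      (le_add_of_nonneg_left (hprod fun j => (s.b j i).toNat).le)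
    rw [hlog] at h1
    refine le_trans (le_of_eq ?_) h1
    exact Finset.sum_congr rfl fun j _ => by rw [hcast]

/-- every element of a good basis is at least one where all cluster variables are -/
theorem one_le_basisF (hMV : Disjoint M V) (hF : ∀ s, Reach M s₀ s → FineF M s)
    (hA : ∀ s, Reach M s₀ s → AbundantOn M s.b) (hβ : IsGood M V s₀ β)
    (p : clAlg M V s₀ →+* ℝ) (hp : ∀ s (hs : Reach M s₀ s) j, 1 ≤ p (cv M V s₀ s hs j))
    (hpV : ∀ s (hs : Reach M s₀ s), ∀ j ∈ V, p (cv M V s₀ s hs j) = 1)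
    (hpos : ∀ k, 0 < p (β k)) (hn : M.Nonempty) (k : ι) : 1 ≤ p (β k) := by
  classical
  by_contra hlt
  push Not at hlt
  have hneg : Real.log (p (β k)) < 0 := Real.log_neg (hpos k) hlt
  obtain ⟨i₀, hi₀⟩ := hn
  obtain ⟨s, D, hs, hD, hdeg, hdeg'⟩ := exists_minF hMV hF (β k : F) (β k).2
  have hFs := hF s hs
  have hfU := clAlg_le hMV hF s hs (β k).2
  set v : Fin n → ℝ := fun j => Real.log (p (cv M V s₀ s hs j)) with hv
  have hv0 : ∀ j, 0 ≤ v j := fun j => Real.log_nonneg (hp s hs j)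
  set y : Fin n → ℝ := fun j => if j ∈ M then D j * v j else 0 with hy
  have hyM : ∀ j ∈ M, y j = D j * v j := fun j hj => by simp only [hy, if_pos hj]
  have hyN : ∀ j, j ∉ M → y j = 0 := fun j hj => by simp only [hy, if_neg hj]
  have hy0 : ∀ j, 0 ≤ y j := by
    intro j
    by_cases hj : j ∈ M
    · rw [hyM j hj]; exact mul_nonneg (Nat.cast_nonneg _) (hv0 j)
    · rw [hyN j hj]
  set S : ℝ := ∑ j, y j with hS
  have hSM : S = ∑ j ∈ M, y j := by
    rw [hS]
    exact (Finset.sum_subset (Finset.subset_univ M) fun j _ hj => hyN j hj).symm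
  have hsplit : ∀ i ∈ M, ∑ j ∈ M.erase i, D j * v j = S - y i := by
    intro i hi
    have h1 : ∑ j ∈ M.erase i, D j * v j = ∑ j ∈ M.erase i, y j :=
      Finset.sum_congr rfl fun j hj => (hyM j (Finset.mem_of_mem_erase hj)).symm
    rw [h1, hSM, ← Finset.add_sum_erase M y hi]; ring
  have hex : ∃ i ∈ M, 1 ≤ D i := by
    by_contra hno
    push Not at hno
    have h0 : ∀ j ∈ M, D j = 0 := fun j hj => by have := hno j hj; omega
    have := nonneg_of_no_denominatorsF hMV hF hβ s hs k p (hp s hs) (hpV s hs)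
      (fun j hj => by have := hD j hj; rwa [h0 j hj] at this) i₀ hi₀
    linarith
  have hhalf1 : ∀ i ∈ M, 1 ≤ D i → 2 * y i < S := by
    intro i hiM hi
    have h1 := main_ineqF hMV hF hβ s hs k p (hp s hs) (hpV s hs) i hiM D
      (fun j hj _ => hD j hj) (D i) hi (hdeg i hiM hi)
    have h2 : D i * v i - ∑ j ∈ M.erase i, D j * v j ≤ Real.log (p (β k)) := h1
    rw [hsplit i hiM] at h2
    have h3 := hyM i hiM
    linarith
  have hSpos : 0 < S := by
    obtain ⟨i, hiM, hi⟩ := hex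
    have := hhalf1 i hiM hi
    have := hy0 i
    linarith
  have hhalf : ∀ i, 2 * y i < S := by
    intro i
    by_cases hiM : i ∈ M
    · by_cases hi : 1 ≤ D i
      · exact hhalf1 i hiM hi
      · have : D i = 0 := by omega
        rw [hyM i hiM, this]; simpa using hSpos
    · rw [hyN i hiM]; linarith
  -- the adjacent seeds
  have hadj : ∀ i (hiM : i ∈ M), 1 ≤ D i → D i * (v i +
      Real.log (p (cv M V s₀ (s.mutate i) (Reach.step s i hiM hs) i))) < S := by
    intro i hiM hi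
    have hs' := Reach.step s i hiM hs
    have h1 := main_ineqF hMV hF hβ (s.mutate i) hs' k p (hp _ hs') (hpV _ hs') i hiM D
      (fun j hj hji => ordGe_mutate_neF hFs _ hfU i j hiM hji _ (hD j hj)) (D i) hi
      (hdeg' i hiM hi)
    have h2 : ∑ j ∈ M.erase i, D j * Real.log (p (cv M V s₀ (s.mutate i) hs' j)) =
        S - y i := by
      rw [← hsplit i hiM]
      refine Finset.sum_congr rfl fun j hj => ?_
      have hj' : j ≠ i := Finset.ne_of_mem_erase hj
      have h3 : cv M V s₀ (s.mutate i) hs' j = cv M V s₀ s hs j :=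
        Subtype.ext (newz_of_ne s.z s.b hj')
      rw [h3]
    rw [h2] at h1
    have h3 := hyM i hiM
    rw [mul_add]
    linarith
  set t : Fin n → Fin n → ℝ := fun i j => if i ∈ M then D i * (|(s.b j i : ℝ)| * v j) else 0
    with ht
  have htM : ∀ i ∈ M, ∀ j, t i j = D i * (|(s.b j i : ℝ)| * v j) := fun i hi j => by
    simp only [ht, if_pos hi]
  have htN : ∀ i, i ∉ M → ∀ j, t i j = 0 := fun i hi j => by simp only [ht, if_neg hi]
  have ht0 : ∀ i j, 0 ≤ t i j := by
    intro i j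
    by_cases hi : i ∈ M
    · rw [htM i hi]
      exact mul_nonneg (Nat.cast_nonneg _) (mul_nonneg (abs_nonneg _) (hv0 j))
    · rw [htN i hi]
  -- the two sums
  have hsums : ∀ i ∈ M, ∑ j, D i * (((max (s.b j i) 0 : ℤ) : ℝ) * v j) < S ∧
      ∑ j, D i * (((max (-(s.b j i)) 0 : ℤ) : ℝ) * v j) < S := by
    intro i hiM
    by_cases hi : 1 ≤ D i
    · have h1 := exchange_logF s hs hFs p (hp s hs) i hiM (hp _ (Reach.step s i hiM hs) i)
      have h2 := hadj i hiM hi
      have hDi : (0 : ℝ) ≤ D i := Nat.cast_nonneg _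
      constructor
      · rw [← Finset.mul_sum]
        exact lt_of_le_of_lt (mul_le_mul_of_nonneg_left h1.1 hDi) h2
      · rw [← Finset.mul_sum]
        exact lt_of_le_of_lt (mul_le_mul_of_nonneg_left h1.2 hDi) h2
    · have : D i = 0 := by omega
      simp [this, hSpos]
  have habs : ∀ a : ℤ, |(a : ℝ)| = ((max a 0 : ℤ) : ℝ) + ((max (-a) 0 : ℤ) : ℝ) := by
    intro a
    have h1 : |a| = max a 0 + max (-a) 0 := by
      rcases le_total 0 a with h | h
      · rw [abs_of_nonneg h]; omega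
      · rw [abs_of_nonpos h]; omega
    rw [← Int.cast_abs, h1]; push_cast; rfl
  have hcase : ∀ a : ℤ, |(a : ℝ)| = ((max a 0 : ℤ) : ℝ) ∨ |(a : ℝ)| = ((max (-a) 0 : ℤ) : ℝ) := by
    intro a
    rcases le_total 0 a with h | h
    · left
      rw [← Int.cast_abs, abs_of_nonneg h, max_eq_left h]
    · right
      rw [← Int.cast_abs, abs_of_nonpos h, max_eq_left (by omega)]
  have hnn : ∀ i j (a : ℤ), 0 ≤ (D i : ℝ) * (((max a 0 : ℤ) : ℝ) * v j) := fun i j a =>
    mul_nonneg (Nat.cast_nonneg _) (mul_nonneg (by exact_mod_cast le_max_right a 0) (hv0 j))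
  have ht1 : ∀ i j, i ≠ j → t i j < S := by
    intro i j _
    by_cases hiM : i ∈ M
    · rcases hcase (s.b j i) with h | h
      · refine lt_of_le_of_lt ?_ (hsums i hiM).1
        have := Finset.single_le_sum
          (f := fun j => (D i : ℝ) * (((max (s.b j i) 0 : ℤ) : ℝ) * v j))
          (fun j _ => hnn i j _) (Finset.mem_univ j)
        rw [htM i hiM, h]; exact this
      · refine lt_of_le_of_lt ?_ (hsums i hiM).2
        have := Finset.single_le_sum
          (f := fun j => (D i : ℝ) * (((max (-(s.b j i)) 0 : ℤ) : ℝ) * v j))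
          (fun j _ => hnn i j _) (Finset.mem_univ j)
        rw [htM i hiM, h]; exact this
    · rw [htN i hiM]; exact hSpos
  have ht2 : ∀ i, ∑ j, t i j < 2 * S := by
    intro i
    by_cases hiM : i ∈ M
    · have h1 : ∑ j, t i j = ∑ j, D i * (((max (s.b j i) 0 : ℤ) : ℝ) * v j) +
          ∑ j, D i * (((max (-(s.b j i)) 0 : ℤ) : ℝ) * v j) := by
        rw [← Finset.sum_add_distrib]
        refine Finset.sum_congr rfl fun j _ => ?_
        rw [htM i hiM, habs]; ring
      rw [h1]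
      have := hsums i hiM
      linarith [this.1, this.2]
    · rw [Finset.sum_eq_zero fun j _ => htN i hiM j]; linarith
  by_cases hn2 : M.card ≤ 2
  · have h1 : ∑ i ∈ M, 2 * y i < ∑ _i ∈ M, S :=
      Finset.sum_lt_sum_of_nonempty ⟨i₀, hi₀⟩ fun i _ => hhalf i
    rw [← Finset.mul_sum, ← hSM, Finset.sum_const, nsmul_eq_mul] at h1
    have h2 : (M.card : ℝ) ≤ 2 := by exact_mod_cast hn2
    nlinarith
  refine no_weights y t hy0 hSpos hhalf ht0 ht1 ht2 (Or.inr ?_)
  intro i j hij
  by_cases hiM : i ∈ M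
  · by_cases hjM : j ∈ M
    · have h1 : (9 : ℤ) ≤ |s.b i j * s.b j i| := by
        rcases (hA s hs i hiM j hjM hij).2 with h | h
        · exact absurd h hn2
        · exact h
      have h2 : (9 : ℝ) ≤ |(s.b j i : ℝ)| * |(s.b i j : ℝ)| := by
        have : (9 : ℝ) ≤ ((|s.b i j * s.b j i| : ℤ) : ℝ) := by exact_mod_cast h1
        rw [Int.cast_abs, Int.cast_mul, abs_mul] at this
        linarith [mul_comm |(s.b i j : ℝ)| |(s.b j i : ℝ)|]
      have h3 : t i j * t j i = (|(s.b j i : ℝ)| * |(s.b i j : ℝ)|) * (y i * y j) := by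
        rw [htM i hiM, htM j hjM, hyM i hiM, hyM j hjM]; ring
      rw [h3]
      exact mul_le_mul_of_nonneg_right h2 (mul_nonneg (hy0 i) (hy0 j))
    · rw [hyN j hjM]
      simpa using mul_nonneg (ht0 i j) (ht0 j i)
  · rw [hyN i hiM]
    simpa using mul_nonneg (ht0 i j) (ht0 j i)

end Pool.Agent.CluF
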