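import Pool.Agent.CluF.Defs
import Pool.Agent.CluN.Reach

/-!
# Laurent phenomenon with frozen variables: adjacent seeds
-/

namespace Pool.Agent.CluF

open Pool.Agent.CluN

variable {F : Type} [Field F] {n : ℕ} {M : Finset (Fin n)}

theorem skewOn_diag {b : Fin n → Fin n → ℤ} (hs : SkewOn M b) (i : Fin n) (hi : i ∈ M) :
    b i i = 0 := by
  obtain ⟨d, hd, hd'⟩ := hs
  have h1 := hd' i hi i hi
  have h2 := hd i
  have h3 : d i * b i i = 0 := by omega
  rcases mul_eq_zero.1 h3 with h | h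
  · omega
  · exact h

theorem skewOn_mutB {b : Fin n → Fin n → ℤ} (hs : SkewOn M b) (k : Fin n) (hk : k ∈ M) :
    SkewOn M (mutB b k) := by
  obtain ⟨d, hd, hd'⟩ := hs
  refine ⟨d, hd, fun i hi j hj => ?_⟩
  have hpos : ∀ i ∈ M, ∀ j ∈ M, d i * max (b i j) 0 = d j * max (-(b j i)) 0 := by
    intro i hi j hj
    rw [mul_max_of_nonneg _ _ (hd i).le, mul_max_of_nonneg _ _ (hd j).le, mul_zero, mul_zero,
      hd' i hi j hj]
    congr 1; ring
  unfold mutB
  by_cases h : i = k ∨ j = k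
  · rw [if_pos h, if_pos (Or.comm.1 h)]
    have := hd' i hi j hj
    linear_combination (-1) * this
  · rw [if_neg h, if_neg (fun h' => h (Or.comm.1 h'))]
    have h1 := hd' i hi j hj
    have h2 := hpos i hi k hk
    have h3 := hpos k hk j hj
    have h4 := hpos j hj k hk
    have h5 := hpos k hk i hi
    have e1 : d i * (max (b i k) 0 * max (b k j) 0) = d j * (max (-(b j k)) 0 * max (-(b k i)) 0) := by
      calc d i * (max (b i k) 0 * max (b k j) 0) = (d i * max (b i k) 0) * max (b k j) 0 := by ring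
        _ = (d k * max (-(b k i)) 0) * max (b k j) 0 := by rw [h2]
        _ = max (-(b k i)) 0 * (d k * max (b k j) 0) := by ring
        _ = max (-(b k i)) 0 * (d j * max (-(b j k)) 0) := by rw [h3]
        _ = _ := by ring
    have e2 : d i * (max (-(b i k)) 0 * max (-(b k j)) 0) = d j * (max (b j k) 0 * max (b k i) 0) := by
      calc d i * (max (-(b i k)) 0 * max (-(b k j)) 0)
          = (d i * max (-(b i k)) 0) * max (-(b k j)) 0 := by ring
        _ = (d k * max (b k i) 0) * max (-(b k j)) 0 := by rw [← h5]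
        _ = max (b k i) 0 * (d k * max (-(b k j)) 0) := by ring
        _ = max (b k i) 0 * (d j * max (b j k) 0) := by rw [← h4]
        _ = _ := by ring
    linear_combination h1 + e1 - e2

theorem skewOn_sign {b : Fin n → Fin n → ℤ} (hs : SkewOn M b) (i k : Fin n) (hi : i ∈ M)
    (hk : k ∈ M) (hne : b i k ≠ 0) :
    (0 < b i k ∧ b k i < 0) ∨ (b i k < 0 ∧ 0 < b k i) := by
  obtain ⟨d, hd, hd'⟩ := hs
  have h1 := hd' i hi k hk
  rcases lt_or_gt_of_ne hne with h | h
  · right
    refine ⟨h, ?_⟩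
    by_contra h3
    have h4 : d i * b i k < 0 := mul_neg_of_pos_of_neg (hd i) h
    have h5 : 0 ≤ -(d k * b k i) := by
      rw [neg_nonneg]; exact mul_nonpos_of_nonneg_of_nonpos (hd k).le (by omega)
    omega
  · left
    refine ⟨h, ?_⟩
    by_contra h3
    have h4 : 0 < d i * b i k := mul_pos (hd i) h
    have h5 : -(d k * b k i) ≤ 0 := by
      rw [neg_nonpos]; exact mul_nonneg (hd k).le (by omega)
    omega

theorem keyF (z : Fin n → F) (hz : ∀ j, z j ≠ 0) (b : Fin n → Fin n → ℤ)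
    (i k : Fin n) (hik : i ≠ k) (hii : b i i = 0) (hkk : b k k = 0) (hi : rhs z b i ≠ 0)
    (hb : (0 < b i k ∧ b k i < 0) ∨ (b i k < 0 ∧ 0 < b k i)) :
    rhs z b k / z k ∈ W (newz z b i) (mutB b i) k := by
  rcases hb with ⟨h, h2⟩ | ⟨h, h2⟩
  · exact key_pos z hz b i k hik hii hkk hi h h2
  · have := key_pos z hz (fun i j => -(b i j)) i k hik (by simp [hii]) (by simp [hkk])
      (by rwa [rhs_neg]) (by simpa using h) (by simpa using h2)
    rw [rhs_neg, newz_neg, mutB_neg, W_neg] at this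
    exact this

/-- propagation of the star conditions -/
theorem propagateF {z : Fin n → F} (hz : Ind z) {b : Fin n → Fin n → ℤ} (hs : SkewOn M b)
    (hne : ∀ i ∈ M, ∀ j ∈ M, i ≠ j → b i j ≠ 0) (i k : Fin n) (hiM : i ∈ M) (hkM : k ∈ M)
    (hik : i ≠ k) (f : F) (hi : f ∈ W z b i) (hk : f ∈ W z b k) :
    f ∈ W (newz z b i) (mutB b i) k := by
  have hii := skewOn_diag hs i hiM
  have hz' := ind_newz hz b i hii
  have hki := hne k hkM i hiM (Ne.symm hik)
  have hs' := skewOn_mutB hs i hiM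
  have hQ : rhs (newz z b i) (mutB b i) k ∈ Ck (newz z b i) k :=
    rhs_mem_Ck _ k (skewOn_diag hs' k hkM)
  have hkz : newz z b i k = z k := newz_of_ne _ _ (Ne.symm hik)
  have hT := W_eq_TT (newz z b i) (mutB b i) k (hz'.1 k) hQ
  have hu : rhs z b i ∈ W (newz z b i) (mutB b i) k := by
    obtain ⟨e, e', β, hβ, he1, he2, he3, he4, hu, -⟩ := rhs_split z b i k hik hii hki
    have hm' : ∀ m : Fin n → ℤ, m i = 0 → mon (newz z b i) m = mon z m :=
      fun m hm => mon_update z i _ m hm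
    rw [hu]
    refine add_mem ?_ (mul_mem ?_ (pow_mem ?_ _))
    · rw [← hm' e he1]; exact Ck_le_W _ _ _ (mon_mem_Ck _ k e he2)
    · rw [← hm' e' he3]; exact Ck_le_W _ _ _ (mon_mem_Ck _ k e' he4)
    · rw [← hkz]; exact z_mem_W _ _ _
  obtain ⟨K, hK⟩ : ∃ K : ℕ, (rhs z b i) ^ K * f ∈ W (newz z b i) (mutB b i) k := by
    refine clear_of_closure _ _ hu _ ?_ f hk
    rintro x (hx | hx | hx)
    · exact clear_Ck hz b i k hik _ (Ck_le_W _ _ _) hu x hx
    · refine ⟨0, ?_⟩
      rw [pow_zero, one_mul, hx, ← hkz]; exact z_mem_W _ _ _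
    · refine ⟨0, ?_⟩
      rw [pow_zero, one_mul, hx]
      exact keyF z hz.1 b i k hik hii (skewOn_diag hs k hkM) (rhs_ne_zero hz b i)
        (skewOn_sign hs i k hiM hkM (hne i hiM k hkM hik))
  rw [← hT] at hK ⊢
  exact sat_rhs hz b i k hik hii hki _ K f (W_le_TT_one hz b i k hik hii hki hi) hK

/-! ### Directions `k` with `b k i = 0` -/

theorem rhs_mem_of_zero {z : Fin n → F} (b : Fin n → Fin n → ℤ) (i k : Fin n)
    (hii : b i i = 0) (hki : b k i = 0) : rhs z b i ∈ Ck (newz z b i) k := by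
  have hm' : ∀ m : Fin n → ℤ, m i = 0 → mon (newz z b i) m = mon z m :=
    fun m hm => mon_update z i _ m hm
  rw [rhs_eq, ← hm' (posp (col b i)) (by unfold posp col; simp [hii]),
    ← hm' (negp (col b i)) (by unfold negp col; simp [hii])]
  exact add_mem (mon_mem_Ck _ k _ (by unfold posp col; simp [hki]))
    (mon_mem_Ck _ k _ (by unfold negp col; simp [hki]))

theorem rhs_mem_poly {z : Fin n → F} (b : Fin n → Fin n → ℤ) (i k : Fin n)
    (hik : i ≠ k) (hii : b i i = 0) (Q : Ck (newz z b i) k) :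
    rhs z b i ∈ TT (Ck (newz z b i) k) (newz z b i k) Q := by
  have hkz : newz z b i k = z k := newz_of_ne _ _ (Ne.symm hik)
  by_cases hki : b k i = 0
  · exact C_le_TT _ (rhs_mem_of_zero b i k hii hki)
  · obtain ⟨e, e', β, hβ, he1, he2, he3, he4, hu, -⟩ := rhs_split z b i k hik hii hki
    have hm' : ∀ m : Fin n → ℤ, m i = 0 → mon (newz z b i) m = mon z m :=
      fun m hm => mon_update z i _ m hm
    rw [hu]
    refine add_mem ?_ (mul_mem ?_ (pow_mem ?_ _))
    · rw [← hm' e he1]; exact C_le_TT _ (mon_mem_Ck _ k e he2)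
    · rw [← hm' e' he3]; exact C_le_TT _ (mon_mem_Ck _ k e' he4)
    · rw [← hkz]; exact y_mem_TT _

theorem W_le_TT_oneF {z : Fin n → F} (hz : Ind z) (b : Fin n → Fin n → ℤ) (i k : Fin n)
    (hik : i ≠ k) (hii : b i i = 0) :
    W z b i ≤ TT (Ck (newz z b i) k) (newz z b i k) 1 := by
  have hz' := ind_newz hz b i hii
  have hkz : newz z b i k = z k := newz_of_ne _ _ (Ne.symm hik)
  have hu' := rhs_mem_poly (z := z) b i k hik hii 1
  set T := TT (Ck (newz z b i) k) (newz z b i k) 1 with hT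
  have hC : Ck (newz z b i) k ≤ T := C_le_TT _
  have hy : z k ∈ T := by rw [← hkz]; exact y_mem_TT _
  have hy' : (z k)⁻¹ ∈ T := by rw [← hkz]; exact inv_mem_TT_one (hz'.1 k)
  have hi : newz z b i i ∈ T := hC (Subring.subset_closure (Or.inl ⟨i, hik, rfl⟩))
  have hi' : (newz z b i i)⁻¹ ∈ T := hC (Subring.subset_closure (Or.inr ⟨i, hik, rfl⟩))
  have hzi := hz.1 i
  have hu0 := rhs_ne_zero hz b i
  unfold W
  rw [Subring.closure_le]
  rintro x (hx | hx | hx)
  · have : Ck z i ≤ T := by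
      unfold Ck
      rw [Subring.closure_le]
      rintro x (⟨j, hj, rfl⟩ | ⟨j, hj, rfl⟩)
      · by_cases hjk : j = k
        · rw [hjk]; exact hy
        · rw [← newz_of_ne z b hj]
          exact hC (Subring.subset_closure (Or.inl ⟨j, hjk, rfl⟩))
      · by_cases hjk : j = k
        · rw [hjk]; exact hy'
        · rw [← newz_of_ne z b hj]
          exact hC (Subring.subset_closure (Or.inr ⟨j, hjk, rfl⟩))
    exact this hx
  · rw [hx]
    have h2 : z i = rhs z b i * (newz z b i i)⁻¹ := by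
      rw [newz_self]; field_simp
    rw [h2]
    exact mul_mem hu' hi'
  · rw [hx, ← newz_self]; exact hi

/-- saturation with respect to a nonzero constant -/
theorem sat_const {C : Subring F} {y : F} (hP : Pair C y) (c : C) (hc : c ≠ 0) (K : ℕ) (f : F)
    (hf : f ∈ TT C y 1) (h : (c : F) ^ K * f ∈ TT C y 0) : f ∈ TT C y 0 := by
  obtain ⟨p, hp⟩ := (mem_TT_zero hP.1 _).1 h
  obtain ⟨L, q, hq, -⟩ := hf
  rw [mem_TT_zero hP.1]
  have h1 : y ^ L * ((c : F) ^ K * f) = Polynomial.eval₂ C.subtype y (Polynomial.C (c ^ K) * q) := by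
    rw [Polynomial.eval₂_mul, Polynomial.eval₂_C, ← hq]
    simp only [Subring.subtype_apply, Subring.coe_pow]
    ring
  have h2 := hP.cancel h1 hp
  rw [pow_zero, one_mul] at h2
  have h3 : Polynomial.X ^ L ∣ q := by
    rw [Polynomial.X_pow_dvd_iff]
    intro d hd
    have h4 := congrArg (fun P => Polynomial.coeff P d) h2
    rw [Polynomial.coeff_C_mul, Polynomial.coeff_X_pow_mul', if_neg (by omega)] at h4
    exact (mul_eq_zero.1 h4).resolve_left (pow_ne_zero _ hc)
  obtain ⟨r, hr⟩ := h3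
  refine ⟨r, ?_⟩
  rw [hr, Polynomial.eval₂_mul, Polynomial.eval₂_pow, Polynomial.eval₂_X] at hq
  rw [pow_zero, one_mul]
  exact mul_left_cancel₀ (pow_ne_zero L hP.1) hq

/-- denominators in the other directions do not change -/
theorem ordGe_newzF {z : Fin n → F} (hz : Ind z) {b : Fin n → Fin n → ℤ} (i k : Fin n)
    (hik : i ≠ k) (hii : b i i = 0) (f : F) (hi : f ∈ W z b i) (E : ℕ)
    (hE : OrdGe (Ck z k) (z k) E f) : OrdGe (Ck (newz z b i) k) (newz z b i k) E f := by
  have hz' := ind_newz hz b i hii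
  have hkz : newz z b i k = z k := newz_of_ne _ _ (Ne.symm hik)
  obtain ⟨p, hp⟩ := hE
  have hu := rhs_mem_poly (z := z) b i k hik hii 0
  have hC : Ck (newz z b i) k ≤ TT (Ck (newz z b i) k) (newz z b i k) 0 := C_le_TT _
  have hy : z k ∈ TT (Ck (newz z b i) k) (newz z b i k) 0 := by rw [← hkz]; exact y_mem_TT _
  have hcl : z k ^ E * f ∈ Subring.closure ((Ck z k : Set F) ∪ {z k}) := by
    rw [hp, Polynomial.eval₂_eq_sum_range]
    refine Subring.sum_mem _ fun s _ => mul_mem (Subring.subset_closure (Or.inl (p.coeff s).2))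
      (pow_mem (Subring.subset_closure (by simp)) _)
  obtain ⟨K, hK⟩ : ∃ K : ℕ, (rhs z b i) ^ K * (z k ^ E * f) ∈
      TT (Ck (newz z b i) k) (newz z b i k) 0 := by
    refine clear_of_closure _ _ hu _ ?_ _ hcl
    rintro x (hx | hx)
    · exact clear_Ck hz b i k hik _ hC hu x hx
    · refine ⟨0, ?_⟩
      rw [pow_zero, one_mul, hx]; exact hy
  have h1 : z k ^ E * f ∈ TT (Ck (newz z b i) k) (newz z b i k) 1 :=
    mul_mem (pow_mem (by rw [← hkz]; exact y_mem_TT _) _) (W_le_TT_oneF hz b i k hik hii hi)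
  have h2 : z k ^ E * f ∈ TT (Ck (newz z b i) k) (newz z b i k) 0 := by
    by_cases hki : b k i = 0
    · refine sat_const (pair_of_ind hz' k) ⟨rhs z b i, rhs_mem_of_zero b i k hii hki⟩ ?_ K _ h1 hK
      intro h
      exact rhs_ne_zero hz b i (congrArg Subtype.val h)
    · exact sat_rhs hz b i k hik hii hki 0 K _ h1 hK
  obtain ⟨q, hq⟩ := (mem_TT_zero (hz'.1 k) _).1 h2
  refine ⟨q, ?_⟩
  rw [← hq, pow_zero, one_mul, hkz]

end Pool.Agent.CluF
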