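import Pool.Agent.CluF.Propag

/-!
# All clusters: Laurent phenomenon and clusters with minimal denominators, with frozen variables
-/

namespace Pool.Agent.CluF

open Pool.Agent.CluN

variable {F : Type} [Field F] {n : ℕ} {M V : Finset (Fin n)}

theorem mutate_mutateF (s : Seed F n) (hz : Ind s.z) (hs : SkewOn M s.b) (i : Fin n)
    (hi : i ∈ M) : (s.mutate i).mutate i = s := by
  have h1 : ((s.mutate i).mutate i).z = s.z := newz_newz hz s.b i (skewOn_diag hs i hi)
  have h2 : ((s.mutate i).mutate i).b = s.b := mutB_mutB s.b i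
  have key : ∀ t : Seed F n, t.z = s.z → t.b = s.b → t = s := by
    rintro ⟨z, b⟩ h1 h2
    cases s
    simp only at h1 h2
    rw [h1, h2]
  exact key _ h1 h2

/-- the upper bound at a seed -/
def UpF (M : Finset (Fin n)) (s : Seed F n) : Subring F := ⨅ k : M, W s.z s.b k

theorem mem_UpF (s : Seed F n) (f : F) : f ∈ UpF M s ↔ ∀ k ∈ M, f ∈ W s.z s.b k := by
  unfold UpF; rw [Subring.mem_iInf]
  exact ⟨fun h k hk => h ⟨k, hk⟩, fun h k => h k.1 k.2⟩

/-- the standing assumptions on a seed -/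
structure FineF (M : Finset (Fin n)) (s : Seed F n) : Prop where
  ind : Ind s.z
  skew : SkewOn M s.b
  ne : ∀ i ∈ M, ∀ j ∈ M, i ≠ j → s.b i j ≠ 0

theorem UpF_le {s : Seed F n} (h : FineF M s) (i : Fin n) (hi : i ∈ M) :
    UpF M s ≤ UpF M (s.mutate i) := by
  intro f hf
  rw [mem_UpF] at hf ⊢
  intro k hkM
  by_cases hk : i = k
  · subst hk
    rw [mutate_z, mutate_b, W_self h.ind s.b i (skewOn_diag h.skew i hi)]
    exact hf i hi
  · exact propagateF h.ind h.skew h.ne i k hi hkM hk f (hf i hi) (hf k hkM)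

theorem UpF_eq {s : Seed F n} (h : FineF M s) (i : Fin n) (hi : i ∈ M)
    (h' : FineF M (s.mutate i)) : UpF M (s.mutate i) = UpF M s := by
  refine le_antisymm ?_ (UpF_le h i hi)
  have := UpF_le h' i hi
  rwa [mutate_mutateF s h.ind h.skew i hi] at this

variable {s₀ : Seed F n}

theorem fineF_of_reach (h0 : Ind s₀.z) (hs : SkewOn M s₀.b)
    (hne : ∀ s, Reach M s₀ s → ∀ i ∈ M, ∀ j ∈ M, i ≠ j → s.b i j ≠ 0) (s : Seed F n)
    (h : Reach M s₀ s) : FineF M s := by
  induction h with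
  | init => exact ⟨h0, hs, hne _ Reach.init⟩
  | step s k hk hr ih =>
    exact ⟨ind_newz ih.ind s.b k (skewOn_diag ih.skew k hk), skewOn_mutB ih.skew k hk,
      hne _ (Reach.step s k hk hr)⟩

theorem UpF_reach (hF : ∀ s, Reach M s₀ s → FineF M s) (s : Seed F n) (h : Reach M s₀ s) :
    UpF M s = UpF M s₀ := by
  induction h with
  | init => rfl
  | step s k hk hr ih => rw [UpF_eq (hF s hr) k hk (hF _ (Reach.step s k hk hr)), ih]

theorem z_mem_UpF (s : Seed F n) (j : Fin n) : s.z j ∈ UpF M s := by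
  rw [mem_UpF]
  intro k _
  by_cases hj : j = k
  · rw [hj]; exact z_mem_W _ _ _
  · exact Ck_le_W _ _ _ (Subring.subset_closure (Or.inl ⟨j, hj, rfl⟩))

theorem zinv_mem_UpF (s : Seed F n) (j : Fin n) (hj : j ∉ M) : (s.z j)⁻¹ ∈ UpF M s := by
  rw [mem_UpF]
  intro k hk
  have hjk : j ≠ k := by rintro rfl; exact hj hk
  exact Ck_le_W _ _ _ (Subring.subset_closure (Or.inr ⟨j, hjk, rfl⟩))

/-- the Laurent phenomenon -/
theorem clAlg_le (hMV : Disjoint M V) (hF : ∀ s, Reach M s₀ s → FineF M s) (s : Seed F n)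
    (h : Reach M s₀ s) : clAlg M V s₀ ≤ UpF M s := by
  rw [UpF_reach hF s h]
  unfold clAlg
  rw [Subring.closure_le]
  rintro f (⟨s', hs', i, -, rfl⟩ | ⟨i, -, rfl⟩ | ⟨i, hi, rfl⟩)
  · have := z_mem_UpF (M := M) s' i
    rw [UpF_reach hF s' hs'] at this
    exact this
  · exact z_mem_UpF s₀ i
  · exact zinv_mem_UpF s₀ i (fun hM => (Finset.disjoint_left.1 hMV hM) hi)

theorem mem_TT_of_mem_UpF {s : Seed F n} (h : FineF M s) (f : F) (hf : f ∈ UpF M s) (k : Fin n)
    (hk : k ∈ M) :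
    f ∈ TT (Ck s.z k) (s.z k) ⟨rhs s.z s.b k, rhs_mem_Ck _ k (skewOn_diag h.skew k hk)⟩ := by
  rw [W_eq_TT s.z s.b k (h.ind.1 k)]
  exact (mem_UpF s f).1 hf k hk

/-- exchange of top and lowest degree -/
theorem ordGe_mutateF {s : Seed F n} (h : FineF M s) (f : F) (hf : f ∈ UpF M s) (i : Fin n)
    (hi : i ∈ M) (E : ℕ) (hE : DegLe (Ck s.z i) (s.z i) E f) :
    OrdGe (Ck (s.mutate i).z i) ((s.mutate i).z i) E f := by
  rw [mutate_z, Ck_newz, newz_self]
  refine ordGe_of_degLe (pair_of_ind h.ind i)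
    ⟨rhs s.z s.b i, rhs_mem_Ck _ i (skewOn_diag h.skew i hi)⟩
    ?_ E f (mem_TT_of_mem_UpF h f hf i hi) hE
  have := h.ind.1 i
  change s.z i * (rhs s.z s.b i / s.z i) = rhs s.z s.b i
  field_simp

/-- the denominators in the other directions at the adjacent seed -/
theorem ordGe_mutate_neF {s : Seed F n} (h : FineF M s) (f : F) (hf : f ∈ UpF M s) (i k : Fin n)
    (hi : i ∈ M) (hik : k ≠ i) (E : ℕ) (hE : OrdGe (Ck s.z k) (s.z k) E f) :
    OrdGe (Ck (s.mutate i).z k) ((s.mutate i).z k) E f :=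
  ordGe_newzF h.ind i k (Ne.symm hik) (skewOn_diag h.skew i hi) f ((mem_UpF s f).1 hf i hi) _ hE

/-- a cluster in which the denominators are minimal -/
theorem exists_minF (hMV : Disjoint M V) (hF : ∀ s, Reach M s₀ s → FineF M s) (f : F)
    (hf : f ∈ clAlg M V s₀) :
    ∃ (s : Seed F n) (D : Fin n → ℕ), Reach M s₀ s ∧
      (∀ k ∈ M, OrdGe (Ck s.z k) (s.z k) (D k) f) ∧
      (∀ i ∈ M, 1 ≤ D i → ¬ DegLe (Ck s.z i) (s.z i) (D i - 1) f) ∧
      (∀ i ∈ M, 1 ≤ D i → ¬ DegLe (Ck (s.mutate i).z i) ((s.mutate i).z i) (D i - 1) f) := by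
  classical
  have hex : ∃ N : ℕ, ∃ (s : Seed F n) (D : Fin n → ℕ), Reach M s₀ s ∧
      (∀ k ∈ M, OrdGe (Ck s.z k) (s.z k) (D k) f) ∧ ∑ j ∈ M, D j = N := by
    have h0 := hF s₀ Reach.init
    have h1 : ∀ k, ∃ E, k ∈ M → OrdGe (Ck s₀.z k) (s₀.z k) E f := fun k => by
      by_cases hk : k ∈ M
      · obtain ⟨E, hE⟩ := exists_ordGe (TT_le_TT_one _ (mem_TT_of_mem_UpF h0 f
          (clAlg_le hMV hF s₀ Reach.init hf) k hk))
        exact ⟨E, fun _ => hE⟩
      · exact ⟨0, fun h => absurd h hk⟩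
    choose D hD using h1
    exact ⟨_, s₀, D, Reach.init, hD, rfl⟩
  obtain ⟨s, D, hs, hD, hsum⟩ := Nat.find_spec hex
  have hmin : ∀ (s' : Seed F n) (D' : Fin n → ℕ), Reach M s₀ s' →
      (∀ k ∈ M, OrdGe (Ck s'.z k) (s'.z k) (D' k) f) → ∑ j ∈ M, D j ≤ ∑ j ∈ M, D' j := by
    intro s' D' h1 h2
    rw [hsum]
    exact Nat.find_min' hex ⟨s', D', h1, h2, rfl⟩
  have hlt : ∀ i ∈ M, 1 ≤ D i → ∑ j ∈ M, Function.update D i (D i - 1) j < ∑ j ∈ M, D j := by
    intro i hiM hi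
    apply Finset.sum_lt_sum
    · intro j _
      by_cases hj : j = i
      · rw [hj, Function.update_self]; omega
      · rw [Function.update_of_ne hj]
    · exact ⟨i, hiM, by rw [Function.update_self]; omega⟩
  have hFs := hF s hs
  have hfU := clAlg_le hMV hF s hs hf
  have hno : ∀ i ∈ M, 1 ≤ D i → ¬ OrdGe (Ck s.z i) (s.z i) (D i - 1) f := by
    intro i hiM hi h
    refine absurd (hmin s (Function.update D i (D i - 1)) hs fun k hkM => ?_)
      (not_le.2 (hlt i hiM hi))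
    by_cases hk : k = i
    · subst hk; rw [Function.update_self]; exact h
    · rw [Function.update_of_ne hk]; exact hD k hkM
  refine ⟨s, D, hs, hD, fun i hiM hi h => ?_, fun i hiM hi h => ?_⟩
  · refine absurd (hmin (s.mutate i) (Function.update D i (D i - 1)) (Reach.step s i hiM hs)
      fun k hkM => ?_) (not_le.2 (hlt i hiM hi))
    by_cases hk : k = i
    · subst hk
      rw [Function.update_self]
      exact ordGe_mutateF hFs f hfU k hiM _ h
    · rw [Function.update_of_ne hk]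
      exact ordGe_mutate_neF hFs f hfU i k hiM hk _ (hD k hkM)
  · have hF' := hF _ (Reach.step s i hiM hs)
    have h1 := ordGe_mutateF hF' f (UpF_le hFs i hiM hfU) i hiM _ h
    rw [mutate_mutateF s hFs.ind hFs.skew i hiM] at h1
    exact hno i hiM hi h1

/-! ### Frozen variables which are not inverted have nonnegative exponents -/

/-- elements whose expansion at `s` has no negative powers of `z j` -/
def Ok (M : Finset (Fin n)) (j : Fin n) (s : Seed F n) : Subring F :=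
  UpF M s ⊓ TT (Ck s.z j) (s.z j) 0

theorem mem_Ok {s : Seed F n} (hz : Ind s.z) (j : Fin n) (f : F) :
    f ∈ Ok M j s ↔ f ∈ UpF M s ∧ OrdGe (Ck s.z j) (s.z j) 0 f := by
  unfold Ok
  rw [Subring.mem_inf, mem_TT_zero (hz.1 j)]

theorem Ok_le {s : Seed F n} (h : FineF M s) (j : Fin n) (hj : j ∉ M) (i : Fin n) (hi : i ∈ M)
    (h' : FineF M (s.mutate i)) : Ok M j s ≤ Ok M j (s.mutate i) := by
  intro f hf
  rw [mem_Ok h.ind] at hf
  rw [mem_Ok h'.ind]
  have hji : j ≠ i := by rintro rfl; exact hj hi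
  exact ⟨UpF_le h i hi hf.1, ordGe_mutate_neF h f hf.1 i j hi hji 0 hf.2⟩

theorem Ok_eq {s : Seed F n} (h : FineF M s) (j : Fin n) (hj : j ∉ M) (i : Fin n) (hi : i ∈ M)
    (h' : FineF M (s.mutate i)) : Ok M j (s.mutate i) = Ok M j s := by
  refine le_antisymm ?_ (Ok_le h j hj i hi h')
  have h2 : FineF M ((s.mutate i).mutate i) := by
    rw [mutate_mutateF s h.ind h.skew i hi]; exact h
  have := Ok_le h' j hj i hi h2
  rwa [mutate_mutateF s h.ind h.skew i hi] at this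

theorem Ok_reach (hF : ∀ s, Reach M s₀ s → FineF M s) (j : Fin n) (hj : j ∉ M) (s : Seed F n)
    (h : Reach M s₀ s) : Ok M j s = Ok M j s₀ := by
  induction h with
  | init => rfl
  | step s k hk hr ih => rw [Ok_eq (hF s hr) j hj k hk (hF _ (Reach.step s k hk hr)), ih]

theorem z_mem_Ok (s : Seed F n) (i j : Fin n) : s.z i ∈ Ok M j s := by
  unfold Ok
  rw [Subring.mem_inf]
  refine ⟨z_mem_UpF s i, ?_⟩
  by_cases h : i = j
  · rw [h]; exact y_mem_TT _
  · exact C_le_TT _ (Subring.subset_closure (Or.inl ⟨i, h, rfl⟩))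

theorem ordGe_frozen (hMV : Disjoint M V) (hF : ∀ s, Reach M s₀ s → FineF M s) (j : Fin n)
    (hj : j ∉ M) (hjV : j ∉ V) (f : F) (hf : f ∈ clAlg M V s₀) (s : Seed F n)
    (hs : Reach M s₀ s) : OrdGe (Ck s.z j) (s.z j) 0 f := by
  have hle : clAlg M V s₀ ≤ Ok M j s₀ := by
    unfold clAlg
    rw [Subring.closure_le]
    rintro f (⟨s', hs', i, -, rfl⟩ | ⟨i, -, rfl⟩ | ⟨i, hi, rfl⟩)
    · have := z_mem_Ok (M := M) s' i j
      rw [Ok_reach hF j hj s' hs'] at this
      exact this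
    · exact z_mem_Ok s₀ i j
    · have hij : i ≠ j := by rintro rfl; exact hjV hi
      unfold Ok
      rw [SetLike.mem_coe, Subring.mem_inf]
      refine ⟨zinv_mem_UpF s₀ i (fun hM => (Finset.disjoint_left.1 hMV hM) hi), ?_⟩
      exact C_le_TT _ (Subring.subset_closure (Or.inr ⟨i, hij, rfl⟩))
  have h1 := hle hf
  rw [← Ok_reach hF j hj s hs, mem_Ok (hF s hs).ind] at h1
  exact h1.2

end Pool.Agent.CluF
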